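import Mathlib
import Pool.Agent.W545.Man.Seg
set_option autoImplicit false
open Set Filter Topology MeasureTheory
open scoped ENNReal

/-!
A functional inequality on `[0,1] × [0,1]²`.
-/

namespace Pool.Agent.TH605.Stk3

/-- squared absolute value as an extended nonnegative real -/
noncomputable def qd (a : ℝ) : ℝ≥0∞ := ENNReal.ofReal (a ^ 2)

theorem qd_add_le (a b : ℝ) : qd (a + b) ≤ 2 * qd a + 2 * qd b :=
  Pool.Agent.W545.Man.sq_add_le a b

theorem qd_neg (a : ℝ) : qd (-a) = qd a := by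
  unfold qd
  rw [neg_sq]

theorem qd_meas : Measurable qd := by
  unfold qd
  exact ENNReal.measurable_ofReal.comp (measurable_id.pow_const 2)

/-- one-dimensional estimate on an open interval -/
theorem oned {f f' : ℝ → ℝ} {a b : ℝ} (hab : a < b) (hb1 : b - a ≤ 1) (hf : ContinuousOn f (Icc a b))
    (hd : ∀ t ∈ Ioo a b, HasDerivAt f (f' t) t) (hc : ContinuousOn f' (Ioo a b)) :
    qd (f b - f a) ≤ ∫⁻ t in Ioo a b, qd (f' t) := by
  by_cases htop : ∫⁻ t in Ioo a b, qd (f' t) = ⊤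
  · rw [htop]; exact le_top
  have hm : AEStronglyMeasurable f' (volume.restrict (Ioo a b)) :=
    hc.aestronglyMeasurable measurableSet_Ioo
  have hi2 : IntegrableOn (fun t => f' t ^ 2) (Ioo a b) := by
    refine ⟨hm.pow 2, ?_⟩
    rw [hasFiniteIntegral_iff_ofReal (Eventually.of_forall fun t => sq_nonneg _)]
    exact lt_top_iff_ne_top.2 htop
  have hi1 : IntegrableOn f' (Ioo a b) := by
    have hfin : IsFiniteMeasure (volume.restrict (Ioo a b)) := by
      refine ⟨?_⟩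
      rw [Measure.restrict_apply_univ, Real.volume_Ioo]
      exact ENNReal.ofReal_lt_top
    have hL2 : MemLp f' 2 (volume.restrict (Ioo a b)) := (memLp_two_iff_integrable_sq hm).2 hi2
    exact hL2.integrable (by norm_num)
  have h1 : ∫ τ in a..b, f' τ = f b - f a := by
    apply intervalIntegral.integral_eq_sub_of_hasDerivAt_of_le hab.le hf hd
    rw [intervalIntegrable_iff_integrableOn_Ioo_of_le hab.le]
    exact hi1
  rw [intervalIntegral.integral_of_le hab.le, integral_Ioc_eq_integral_Ioo] at h1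
  set c := f b - f a with hcdef
  have key : c ^ 2 ≤ ∫ t in Ioo a b, f' t ^ 2 := by
    have hL : (volume (Ioo a b)).toReal = b - a := by
      rw [Real.volume_Ioo, ENNReal.toReal_ofReal (by linarith)]
    have h2 : 0 ≤ ∫ t in Ioo a b, (f' t - c) ^ 2 := integral_nonneg fun t => sq_nonneg _
    have h3 : ∫ t in Ioo a b, (f' t - c) ^ 2 =
        (∫ t in Ioo a b, f' t ^ 2) - 2 * c ^ 2 + (b - a) * c ^ 2 := by
      have e : ∀ t, (f' t - c) ^ 2 = (f' t ^ 2 - 2 * c * f' t) + c ^ 2 := fun t => by ring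
      simp only [e]
      have hcst : IntegrableOn (fun _ : ℝ => c ^ 2) (Ioo a b) := by
        have hfin : IsFiniteMeasure (volume.restrict (Ioo a b)) := by
          refine ⟨?_⟩
          rw [Measure.restrict_apply_univ, Real.volume_Ioo]
          exact ENNReal.ofReal_lt_top
        exact integrable_const _
      have hs : IntegrableOn (fun t => f' t ^ 2 - 2 * c * f' t) (Ioo a b) := hi2.sub (hi1.const_mul _)
      rw [integral_add hs hcst, integral_sub hi2 (hi1.const_mul _),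
        integral_const_mul, h1, setIntegral_const, Measure.real, hL, smul_eq_mul]
      ring
    rw [h3] at h2
    nlinarith [sq_nonneg c]
  unfold qd
  rw [← ofReal_integral_eq_lintegral_ofReal hi2 (Eventually.of_forall fun t => sq_nonneg _)]
  exact ENNReal.ofReal_le_ofReal key

theorem qd_five (a b c d e : ℝ) : qd (a + b + c + d + e) ≤ 5 * (qd a + qd b + qd c + qd d + qd e) := by
  unfold qd
  rw [← ENNReal.ofReal_add (by positivity) (by positivity),
    ← ENNReal.ofReal_add (by positivity) (by positivity),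
    ← ENNReal.ofReal_add (by positivity) (by positivity),
    ← ENNReal.ofReal_add (by positivity) (by positivity), ← ENNReal.ofReal_ofNat 5,
    ← ENNReal.ofReal_mul (by norm_num)]
  apply ENNReal.ofReal_le_ofReal
  nlinarith [sq_nonneg (a - b), sq_nonneg (a - c), sq_nonneg (a - d), sq_nonneg (a - e),
    sq_nonneg (b - c), sq_nonneg (b - d), sq_nonneg (b - e), sq_nonneg (c - d), sq_nonneg (c - e),
    sq_nonneg (d - e)]

/-- the unit interval, as a probability measure on the line -/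
noncomputable abbrev β : Measure ℝ := volume.restrict (Ioo (0:ℝ) 1)

instance : IsProbabilityMeasure β := by
  refine ⟨?_⟩
  rw [Measure.restrict_apply_univ, Real.volume_Ioo]
  simp

/-- the data of a function on the slab -/
structure Slab (U Ur Ux Uy : ℝ → ℝ → ℝ → ℝ) : Prop where
  cont : ContinuousOn (fun p : ℝ × ℝ × ℝ => U p.1 p.2.1 p.2.2) (Icc (0:ℝ) 1 ×ˢ univ)
  dr : ∀ r ∈ Ioo (0:ℝ) 1, ∀ x y, HasDerivAt (fun s => U s x y) (Ur r x y) r
  dx : ∀ r ∈ Ioo (0:ℝ) 1, ∀ x y, HasDerivAt (fun s => U r s y) (Ux r x y) x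
  dy : ∀ r ∈ Ioo (0:ℝ) 1, ∀ x y, HasDerivAt (fun s => U r x s) (Uy r x y) y
  cr : ContinuousOn (fun p : ℝ × ℝ × ℝ => Ur p.1 p.2.1 p.2.2) (Ioo (0:ℝ) 1 ×ˢ univ)
  cx : ContinuousOn (fun p : ℝ × ℝ × ℝ => Ux p.1 p.2.1 p.2.2) (Ioo (0:ℝ) 1 ×ˢ univ)
  cy : ContinuousOn (fun p : ℝ × ℝ × ℝ => Uy p.1 p.2.1 p.2.2) (Ioo (0:ℝ) 1 ×ˢ univ)

/-- integral of a square over a part of the slab -/
noncomputable def en (J : Set ℝ) (W : ℝ → ℝ → ℝ → ℝ) : ℝ≥0∞ :=
  ∫⁻ r in J, ∫⁻ x, ∫⁻ y, qd (W r x y) ∂β ∂β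

theorem ind_meas {W : ℝ → ℝ → ℝ → ℝ}
    (h : ContinuousOn (fun p : ℝ × ℝ × ℝ => W p.1 p.2.1 p.2.2) (Ioo (0:ℝ) 1 ×ˢ univ)) :
    ∃ G : ℝ × ℝ × ℝ → ℝ≥0∞, Measurable G ∧
      ∀ r ∈ Ioo (0:ℝ) 1, ∀ x y, G (r, x, y) = qd (W r x y) := by
  refine ⟨(Ioo (0:ℝ) 1 ×ˢ (univ : Set (ℝ × ℝ))).indicator fun p => qd (W p.1 p.2.1 p.2.2), ?_, ?_⟩
  · have hms : MeasurableSet (Ioo (0:ℝ) 1 ×ˢ (univ : Set (ℝ × ℝ))) :=
      measurableSet_Ioo.prod MeasurableSet.univ
    have h2 : ContinuousOn (fun p : ℝ × ℝ × ℝ => qd (W p.1 p.2.1 p.2.2))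
        (Ioo (0:ℝ) 1 ×ˢ univ) := by
      unfold qd
      exact ENNReal.continuous_ofReal.comp_continuousOn (h.pow 2)
    have h3 := h2.measurable_piecewise (g := fun _ => (0 : ℝ≥0∞)) continuousOn_const hms
    rw [← piecewise_eq_indicator]
    exact h3
  · intro r hr x y
    exact indicator_of_mem (show ((r, x, y) : ℝ × ℝ × ℝ) ∈ Ioo (0:ℝ) 1 ×ˢ (univ : Set (ℝ × ℝ)) from
      ⟨hr, mem_univ _⟩) _

theorem ae_β : ∀ᵐ r ∂β, r ∈ Ioo (0:ℝ) 1 := ae_restrict_mem measurableSet_Ioo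

/-- the functional inequality -/
theorem core {U Ur Ux Uy : ℝ → ℝ → ℝ → ℝ} (h : Slab U Ur Ux Uy) :
    ∃ c : ℝ, ∫⁻ x, ∫⁻ y, qd (U 0 x y - c) ∂β ∂β + ∫⁻ x, ∫⁻ y, qd (U 1 x y - c) ∂β ∂β ≤
      60 * (en (Ioo 0 1) Ur + en (Icc (1/8) (3/8)) Ux + en (Icc (5/8) (7/8)) Uy) := by
  obtain ⟨Gr, hGr, eGr⟩ := ind_meas h.cr
  obtain ⟨Gx, hGx, eGx⟩ := ind_meas h.cx
  obtain ⟨Gy, hGy, eGy⟩ := ind_meas h.cy
  -- slices
  set R : ℝ → ℝ → ℝ≥0∞ := fun x y => ∫⁻ r, Gr (r, x, y) ∂β with hR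
  have hRm : Measurable fun p : ℝ × ℝ => R p.1 p.2 := by
    have : Measurable fun q : ℝ × (ℝ × ℝ) => Gr (q.1, q.2.1, q.2.2) := hGr
    exact this.lintegral_prod_left'
  set X : ℝ → ℝ → ℝ≥0∞ := fun r y => ∫⁻ x, Gx (r, x, y) ∂β with hX
  have hXm : Measurable fun p : ℝ × ℝ => X p.1 p.2 := by
    have : Measurable fun q : (ℝ × ℝ) × ℝ => Gx (q.1.1, q.2, q.1.2) :=
      hGx.comp ((measurable_fst.comp measurable_fst).prodMk
        (measurable_snd.prodMk (measurable_snd.comp measurable_fst)))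
    exact this.lintegral_prod_right'
  set Y : ℝ → ℝ → ℝ≥0∞ := fun r x => ∫⁻ y, Gy (r, x, y) ∂β with hY
  have hYm : Measurable fun p : ℝ × ℝ => Y p.1 p.2 := by
    have : Measurable fun q : (ℝ × ℝ) × ℝ => Gy (q.1.1, q.1.2, q.2) :=
      hGy.comp ((measurable_fst.comp measurable_fst).prodMk
        ((measurable_snd.comp measurable_fst).prodMk measurable_snd))
    exact this.lintegral_prod_right'
  have hcontr : ∀ x y, ContinuousOn (fun s => U s x y) (Icc 0 1) := by
    intro x y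
    exact h.cont.comp (f := fun s : ℝ => (s, x, y)) (by fun_prop) (fun s hs => ⟨hs, mem_univ _⟩)
  have hcr1 : ∀ x y, ContinuousOn (fun s => Ur s x y) (Ioo 0 1) := by
    intro x y
    exact h.cr.comp (f := fun s : ℝ => (s, x, y)) (by fun_prop) (fun s hs => ⟨hs, mem_univ _⟩)
  have hcx1 : ∀ r ∈ Ioo (0:ℝ) 1, ∀ y, Continuous fun s => Ux r s y := by
    intro r hr y
    exact h.cx.comp_continuous (f := fun s : ℝ => (r, s, y)) (by fun_prop) (fun s => ⟨hr, mem_univ _⟩)
  have hcy1 : ∀ r ∈ Ioo (0:ℝ) 1, ∀ x, Continuous fun s => Uy r x s := by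
    intro r hr x
    exact h.cy.comp_continuous (f := fun s : ℝ => (r, x, s)) (by fun_prop) (fun s => ⟨hr, mem_univ _⟩)
  -- restricted integrals over subintervals
  have mono : ∀ {a b : ℝ} (F : ℝ → ℝ≥0∞), 0 ≤ a → b ≤ 1 →
      ∫⁻ t in Ioo a b, F t ≤ ∫⁻ t in Ioo 0 1, F t := fun F ha hb =>
    lintegral_mono_set (Ioo_subset_Ioo ha hb)
  have estR : ∀ x y, ∀ a b : ℝ, 0 ≤ a → a < b → b ≤ 1 → qd (U a x y - U b x y) ≤ R x y := by
    intro x y a b ha hab hb
    have h1 := oned (f := fun s => U s x y) (f' := fun s => Ur s x y) hab (by linarith)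
      ((hcontr x y).mono (Icc_subset_Icc ha hb))
      (fun t ht => h.dr t ⟨lt_of_le_of_lt ha ht.1, lt_of_lt_of_le ht.2 hb⟩ x y)
      ((hcr1 x y).mono (Ioo_subset_Ioo ha hb))
    have e : qd (U a x y - U b x y) = qd (U b x y - U a x y) := by
      rw [← qd_neg]; congr 1; ring
    rw [e]
    refine h1.trans ((mono _ ha hb).trans (le_of_eq ?_))
    exact setLIntegral_congr_fun measurableSet_Ioo fun t ht => (eGr t ht x y).symm
  have estX : ∀ r ∈ Ioo (0:ℝ) 1, ∀ y, ∀ a ∈ Ioo (0:ℝ) 1, ∀ b ∈ Ioo (0:ℝ) 1,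
      qd (U r a y - U r b y) ≤ X r y := by
    intro r hr y
    have key : ∀ a b : ℝ, 0 ≤ a → a < b → b ≤ 1 → qd (U r b y - U r a y) ≤ X r y := by
      intro a b ha hab hb
      have h1 := oned (f := fun s => U r s y) (f' := fun s => Ux r s y) hab (by linarith)
        (fun t _ => (h.dx r hr t y).continuousAt.continuousWithinAt)
        (fun t _ => h.dx r hr t y) (hcx1 r hr y).continuousOn
      refine h1.trans ((mono _ ha hb).trans (le_of_eq ?_))
      exact setLIntegral_congr_fun measurableSet_Ioo fun t ht => (eGx r hr t y).symm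
    intro a ha b hb
    rcases lt_trichotomy a b with hab | hab | hab
    · rw [← qd_neg]
      have := key a b ha.1.le hab hb.2.le
      refine le_trans (le_of_eq ?_) this
      congr 1; ring
    · subst hab
      rw [sub_self]
      unfold qd
      simp
    · exact key b a hb.1.le hab ha.2.le
  have estY : ∀ r ∈ Ioo (0:ℝ) 1, ∀ x, ∀ a ∈ Ioo (0:ℝ) 1, ∀ b ∈ Ioo (0:ℝ) 1,
      qd (U r x a - U r x b) ≤ Y r x := by
    intro r hr x
    have key : ∀ a b : ℝ, 0 ≤ a → a < b → b ≤ 1 → qd (U r x b - U r x a) ≤ Y r x := by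
      intro a b ha hab hb
      have h1 := oned (f := fun s => U r x s) (f' := fun s => Uy r x s) hab (by linarith)
        (fun t _ => (h.dy r hr x t).continuousAt.continuousWithinAt)
        (fun t _ => h.dy r hr x t) (hcy1 r hr x).continuousOn
      refine h1.trans ((mono _ ha hb).trans (le_of_eq ?_))
      exact setLIntegral_congr_fun measurableSet_Ioo fun t ht => (eGy r hr x t).symm
    intro a ha b hb
    rcases lt_trichotomy a b with hab | hab | hab
    · rw [← qd_neg]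
      have := key a b ha.1.le hab hb.2.le
      refine le_trans (le_of_eq ?_) this
      congr 1; ring
    · subst hab
      rw [sub_self]
      unfold qd
      simp
    · exact key b a hb.1.le hab ha.2.le
  -- good slices
  have hI1 : ∀ r ∈ Icc (1/8 : ℝ) (3/8), r ∈ Ioo (0:ℝ) 1 := fun r hr =>
    ⟨by linarith [hr.1], by linarith [hr.2]⟩
  have hI2 : ∀ r ∈ Icc (5/8 : ℝ) (7/8), r ∈ Ioo (0:ℝ) 1 := fun r hr =>
    ⟨by linarith [hr.1], by linarith [hr.2]⟩
  have hv1 : volume (Icc (1/8 : ℝ) (3/8)) = ENNReal.ofReal (1/4) := by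
    rw [Real.volume_Icc]; norm_num
  have hv2 : volume (Icc (5/8 : ℝ) (7/8)) = ENNReal.ofReal (1/4) := by
    rw [Real.volume_Icc]; norm_num
  have hq : (ENNReal.ofReal (1/4))⁻¹ = 4 := by
    rw [← ENNReal.ofReal_inv_of_pos (by norm_num)]
    norm_num
  obtain ⟨r1, hr1, hr1'⟩ := exists_le_setLAverage (μ := volume) (s := Icc (1/8 : ℝ) (3/8))
    (f := fun r => ∫⁻ y, X r y ∂β) (by rw [hv1]; simp) (by rw [hv1]; simp)
    (hXm.lintegral_prod_right').aemeasurable
  obtain ⟨r2, hr2, hr2'⟩ := exists_le_setLAverage (μ := volume) (s := Icc (5/8 : ℝ) (7/8))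
    (f := fun r => ∫⁻ x, Y r x ∂β) (by rw [hv2]; simp) (by rw [hv2]; simp)
    (hYm.lintegral_prod_right').aemeasurable
  rw [setLAverage_eq, hv1, ENNReal.div_eq_inv_mul, hq] at hr1'
  rw [setLAverage_eq, hv2, ENNReal.div_eq_inv_mul, hq] at hr2'
  have hEX : ∫⁻ r in Icc (1/8 : ℝ) (3/8), ∫⁻ y, X r y ∂β = en (Icc (1/8) (3/8)) Ux := by
    apply setLIntegral_congr_fun measurableSet_Icc
    intro r hr
    show ∫⁻ y, ∫⁻ x, Gx (r, x, y) ∂β ∂β = ∫⁻ x, ∫⁻ y, qd (Ux r x y) ∂β ∂β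
    rw [lintegral_lintegral_swap]
    · simp only [eGx r (hI1 r hr)]
    · have : Measurable fun q : ℝ × ℝ => Gx (r, q.2, q.1) :=
        hGx.comp (measurable_const.prodMk (measurable_snd.prodMk measurable_fst))
      exact this.aemeasurable
  have hEY : ∫⁻ r in Icc (5/8 : ℝ) (7/8), ∫⁻ x, Y r x ∂β = en (Icc (5/8) (7/8)) Uy := by
    apply setLIntegral_congr_fun measurableSet_Icc
    intro r hr
    show ∫⁻ x, ∫⁻ y, Gy (r, x, y) ∂β ∂β = ∫⁻ x, ∫⁻ y, qd (Uy r x y) ∂β ∂β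
    simp only [eGy r (hI2 r hr)]
  have hER : ∫⁻ x, ∫⁻ y, R x y ∂β ∂β = en (Ioo 0 1) Ur := by
    have h1 := Pool.Agent.W545.Man.tonelli3 (α := β) (β := β) (γ := β)
      (G := fun x y r => Gr (r, x, y))
      (hGr.comp ((measurable_snd.comp measurable_snd).prodMk
        (measurable_fst.prodMk (measurable_fst.comp measurable_snd))))
    show ∫⁻ x, ∫⁻ y, ∫⁻ r, Gr (r, x, y) ∂β ∂β ∂β = _
    rw [h1]
    apply setLIntegral_congr_fun measurableSet_Ioo
    intro r hr
    simp only [eGr r hr]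
  rw [hEX] at hr1'
  rw [hEY] at hr2'
  set ER := en (Ioo 0 1) Ur with hERd
  set EX := en (Icc (1/8) (3/8)) Ux with hEXd
  set EY := en (Icc (5/8) (7/8)) Uy with hEYd
  have hr1i := hI1 r1 hr1
  have hr2i := hI2 r2 hr2
  -- the pointwise estimate
  have hpt : ∀ x ∈ Ioo (0:ℝ) 1, ∀ y ∈ Ioo (0:ℝ) 1, ∀ x' ∈ Ioo (0:ℝ) 1, ∀ y' ∈ Ioo (0:ℝ) 1,
      qd (U 0 x y - U 0 x' y') ≤ 5 * (R x y + X r1 y + R x' y + Y r2 x' + R x' y') := by
    intro x hx y hy x' hx' y' hy'
    have e : U 0 x y - U 0 x' y' = (U 0 x y - U r1 x y) + (U r1 x y - U r1 x' y) +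
        (U r1 x' y - U r2 x' y) + (U r2 x' y - U r2 x' y') + (U r2 x' y' - U 0 x' y') := by ring
    rw [e]
    refine (qd_five _ _ _ _ _).trans ?_
    gcongr
    · exact estR x y 0 r1 le_rfl hr1i.1 hr1i.2.le
    · exact estX r1 hr1i y x hx x' hx'
    · exact estR x' y r1 r2 hr1i.1.le (by linarith [hr1.2, hr2.1]) hr2i.2.le
    · exact estY r2 hr2i x' y hy y' hy'
    · have e2 : qd (U r2 x' y' - U 0 x' y') = qd (U 0 x' y' - U r2 x' y') := by
        rw [← qd_neg]; congr 1; ring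
      rw [e2]
      exact estR x' y' 0 r2 le_rfl hr2i.1 hr2i.2.le
  -- measurability of pieces
  have hR1 : ∀ x, Measurable fun y => R x y := fun x => hRm.comp (measurable_const.prodMk measurable_id)
  have hRi : Measurable fun x => ∫⁻ y, R x y ∂β := hRm.lintegral_prod_right'
  have hXr : Measurable fun y => X r1 y := hXm.comp (measurable_const.prodMk measurable_id)
  have hYr : Measurable fun x => Y r2 x := hYm.comp (measurable_const.prodMk measurable_id)
  -- integration in (x, y)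
  have hint : ∀ x' ∈ Ioo (0:ℝ) 1, ∀ y' ∈ Ioo (0:ℝ) 1,
      ∫⁻ x, ∫⁻ y, qd (U 0 x y - U 0 x' y') ∂β ∂β ≤
        5 * (ER + 4 * EX + ∫⁻ y, R x' y ∂β + Y r2 x' + R x' y') := by
    intro x' hx' y' hy'
    calc ∫⁻ x, ∫⁻ y, qd (U 0 x y - U 0 x' y') ∂β ∂β
        ≤ ∫⁻ x, ∫⁻ y, 5 * (R x y + X r1 y + R x' y + Y r2 x' + R x' y') ∂β ∂β := by
          apply lintegral_mono_ae
          filter_upwards [ae_β] with x hx
          apply lintegral_mono_ae
          filter_upwards [ae_β] with y hy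
          exact hpt x hx y hy x' hx' y' hy'
      _ = 5 * (∫⁻ x, ∫⁻ y, R x y ∂β ∂β + ∫⁻ y, X r1 y ∂β + ∫⁻ y, R x' y ∂β + Y r2 x' + R x' y') := by
          have e1 : ∀ x, ∫⁻ y, 5 * (R x y + X r1 y + R x' y + Y r2 x' + R x' y') ∂β =
              5 * (∫⁻ y, R x y ∂β + (∫⁻ y, X r1 y ∂β + ∫⁻ y, R x' y ∂β + Y r2 x' + R x' y')) := by
            intro x
            rw [lintegral_const_mul' _ _ (by norm_num)]
            congr 1
            rw [lintegral_add_right _ measurable_const, lintegral_add_right _ measurable_const,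
              lintegral_add_right _ (hR1 x'), lintegral_add_right _ hXr]
            simp only [lintegral_const, measure_univ, mul_one]
            ring
          simp only [e1]
          rw [lintegral_const_mul' _ _ (by norm_num), lintegral_add_right _ measurable_const]
          simp only [lintegral_const, measure_univ, mul_one]
          ring
      _ ≤ _ := by
          rw [hER]
          gcongr
  -- choice of (x', y')
  set H : ℝ → ℝ → ℝ≥0∞ := fun x' y' =>
    5 * (ER + 4 * EX + ∫⁻ y, R x' y ∂β + Y r2 x' + R x' y') with hH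
  have hHm : Measurable fun p : ℝ × ℝ => H p.1 p.2 := by
    apply Measurable.const_mul
    apply Measurable.add _ hRm
    apply Measurable.add _ (hYr.comp measurable_fst)
    exact Measurable.add measurable_const (hRi.comp measurable_fst)
  have hHint : ∫⁻ x', ∫⁻ y', H x' y' ∂β ∂β ≤ 15 * ER + 20 * EX + 20 * EY := by
    have e1 : ∀ x', ∫⁻ y', H x' y' ∂β = 5 * (ER + 4 * EX + (2 * ∫⁻ y, R x' y ∂β + Y r2 x')) := by
      intro x'
      show ∫⁻ y', 5 * (ER + 4 * EX + ∫⁻ y, R x' y ∂β + Y r2 x' + R x' y') ∂β = _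
      rw [lintegral_const_mul' _ _ (by norm_num)]
      congr 1
      rw [lintegral_add_right _ (hR1 x')]
      simp only [lintegral_const, measure_univ, mul_one]
      ring
    simp only [e1]
    rw [lintegral_const_mul' _ _ (by norm_num), lintegral_add_left measurable_const,
      lintegral_add_right _ hYr, lintegral_const_mul' _ _ (by norm_num), hER]
    simp only [lintegral_const, measure_univ, mul_one]
    calc 5 * (ER + 4 * EX + (2 * ER + ∫⁻ x, Y r2 x ∂β))
        ≤ 5 * (ER + 4 * EX + (2 * ER + 4 * EY)) := by gcongr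
      _ = 15 * ER + 20 * EX + 20 * EY := by ring
  obtain ⟨x', hx', hx''⟩ : ∃ x' ∈ Ioo (0:ℝ) 1, ∫⁻ y', H x' y' ∂β ≤
      ∫⁻ x', ∫⁻ y', H x' y' ∂β ∂β := by
    obtain ⟨x', h1, h2⟩ := exists_le_setLAverage (μ := volume) (s := Ioo (0:ℝ) 1)
      (f := fun x' => ∫⁻ y', H x' y' ∂β) (by simp) (by simp)
      (hHm.lintegral_prod_right').aemeasurable
    refine ⟨x', h1, ?_⟩
    rw [setLAverage_eq] at h2
    simpa using h2
  obtain ⟨y', hy', hy''⟩ : ∃ y' ∈ Ioo (0:ℝ) 1, H x' y' ≤ ∫⁻ y', H x' y' ∂β := by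
    obtain ⟨y', h1, h2⟩ := exists_le_setLAverage (μ := volume) (s := Ioo (0:ℝ) 1)
      (f := fun y' => H x' y') (by simp) (by simp)
      (hHm.comp (measurable_const.prodMk measurable_id)).aemeasurable
    refine ⟨y', h1, ?_⟩
    rw [setLAverage_eq] at h2
    simpa using h2
  refine ⟨U 0 x' y', ?_⟩
  set c := U 0 x' y' with hc
  have hA : ∫⁻ x, ∫⁻ y, qd (U 0 x y - c) ∂β ∂β ≤ 15 * ER + 20 * EX + 20 * EY :=
    (hint x' hx' y' hy').trans (hy''.trans (hx''.trans hHint))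
  have hB : ∫⁻ x, ∫⁻ y, qd (U 1 x y - c) ∂β ∂β ≤
      2 * ER + 2 * ∫⁻ x, ∫⁻ y, qd (U 0 x y - c) ∂β ∂β := by
    calc ∫⁻ x, ∫⁻ y, qd (U 1 x y - c) ∂β ∂β
        ≤ ∫⁻ x, ∫⁻ y, (2 * R x y + 2 * qd (U 0 x y - c)) ∂β ∂β := by
          gcongr with x y
          have e : U 1 x y - c = (U 1 x y - U 0 x y) + (U 0 x y - c) := by ring
          rw [e]
          refine (qd_add_le _ _).trans ?_
          gcongr
          have e2 : qd (U 1 x y - U 0 x y) = qd (U 0 x y - U 1 x y) := by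
            rw [← qd_neg]; congr 1; ring
          rw [e2]
          exact estR x y 0 1 le_rfl one_pos le_rfl
      _ = 2 * ER + 2 * ∫⁻ x, ∫⁻ y, qd (U 0 x y - c) ∂β ∂β := by
          have e1 : ∀ x, ∫⁻ y, (2 * R x y + 2 * qd (U 0 x y - c)) ∂β =
              2 * ∫⁻ y, R x y ∂β + 2 * ∫⁻ y, qd (U 0 x y - c) ∂β := by
            intro x
            rw [lintegral_add_left ((hR1 x).const_mul _), lintegral_const_mul' _ _ (by norm_num),
              lintegral_const_mul' _ _ (by norm_num)]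
          simp only [e1]
          rw [lintegral_add_left (hRi.const_mul _), lintegral_const_mul' _ _ (by norm_num),
            lintegral_const_mul' _ _ (by norm_num), hER]
  calc ∫⁻ x, ∫⁻ y, qd (U 0 x y - c) ∂β ∂β + ∫⁻ x, ∫⁻ y, qd (U 1 x y - c) ∂β ∂β
      ≤ (15 * ER + 20 * EX + 20 * EY) + (2 * ER + 2 * (15 * ER + 20 * EX + 20 * EY)) := by
        gcongr
        exact hB.trans (by gcongr)
    _ = 47 * ER + 60 * EX + 60 * EY := by ring
    _ ≤ 60 * ER + 60 * EX + 60 * EY := by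
        gcongr
        norm_num
    _ = _ := by ring

end Pool.Agent.TH605.Stk3
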