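import Mathlib
import Pool.Agent.W545.Man.SigmaOne
import Pool.Agent.W556.TorusMfd
set_option autoImplicit false
open Set Filter Topology MeasureTheory
open scoped ENNReal Manifold ContDiff
open Pool.Agent.W545.Man Pool.Agent.W556.Tor

/-!
The manifold with boundary `[0,1] × T²`.
-/

namespace Pool.Agent.TH605.Stk3

/-- the manifold `[0,1] × T²` -/
abbrev MM : Type := unitInterval × Tr 2

/-- `(s, z) ↦ (s, z₀, z₁)` -/
noncomputable def cn (s : ℝ) (z : Eu 2) : EE 2 := WithLp.toLp 2 (Fin.cons s z.ofLp)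

/-- the last two coordinates -/
noncomputable def tl (y : EE 2) : Eu 2 := WithLp.toLp 2 fun i => y i.succ

theorem cn_zero (s : ℝ) (z : Eu 2) : cn s z 0 = s := rfl
theorem cn_succ (s : ℝ) (z : Eu 2) (i : Fin 2) : cn s z i.succ = z i := rfl
theorem tl_apply (y : EE 2) (i : Fin 2) : tl y i = y i.succ := rfl
theorem tl_cn (s : ℝ) (z : Eu 2) : tl (cn s z) = z := rfl
theorem cn_tl (y : EE 2) : cn (y 0) (tl y) = y := by
  ext i
  refine Fin.cases ?_ (fun j => ?_) i
  · rfl
  · rfl

theorem cn_add (s t : ℝ) (z w : Eu 2) : cn (s + t) (z + w) = cn s z + cn t w := by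
  ext i
  refine Fin.cases ?_ (fun j => ?_) i
  · rfl
  · rfl

theorem cn_cont : Continuous fun p : ℝ × Eu 2 => cn p.1 p.2 := by
  refine (PiLp.continuous_toLp 2 _).comp (continuous_pi fun i => ?_)
  refine Fin.cases ?_ (fun j => ?_) i
  · exact continuous_fst
  · have : Continuous fun p : ℝ × Eu 2 => p.2 j := by fun_prop
    exact this

theorem tl_cont : Continuous tl := by
  refine (PiLp.continuous_toLp 2 _).comp (continuous_pi fun i => ?_)
  have : Continuous fun y : EE 2 => y i.succ := by fun_prop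
  exact this

/-- the identity or the reflection of the interval -/
def sg (b : Bool) (s : ℝ) : ℝ := if b then s else 1 - s

/-- the sign -/
def sn (b : Bool) : ℝ := if b then 1 else -1

theorem sn_sq (b : Bool) : sn b * sn b = 1 := by
  cases b <;> simp [sn]

theorem sg_eq (b : Bool) (s : ℝ) : sg b s = sn b * s + sg b 0 := by
  cases b
  · simp [sg, sn]; ring
  · simp [sg, sn]

theorem sg_sg (b : Bool) (s : ℝ) : sg b (sg b s) = s := by
  cases b <;> simp [sg]

theorem sg_cont (b : Bool) : Continuous (sg b) := by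
  cases b
  · have : sg false = fun s => 1 - s := by ext s; simp [sg]
    rw [this]; fun_prop
  · have : sg true = fun s => s := by ext s; simp [sg]
    rw [this]; fun_prop

theorem sg_smooth (b : Bool) : ContDiff ℝ ∞ (sg b) := by
  cases b
  · have : sg false = fun s => 1 - s := by ext s; simp [sg]
    rw [this]; fun_prop
  · have : sg true = fun s => s := by ext s; simp [sg]
    rw [this]; fun_prop

theorem sg_mem {b : Bool} {s : ℝ} (h : s ∈ Icc (0:ℝ) 1) : sg b s ∈ Icc (0:ℝ) 1 := by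
  cases b
  · simp only [sg]; constructor <;> simp <;> linarith [h.1, h.2]
  · simpa [sg] using h

/-- the point of the interval -/
noncomputable def pI (s : ℝ) : unitInterval := projIcc 0 1 zero_le_one s

theorem pI_val {s : ℝ} (h : s ∈ Icc (0:ℝ) 1) : (pI s : ℝ) = s := by
  unfold pI
  rw [projIcc_of_mem _ h]

theorem pI_coe (s : unitInterval) : pI (s : ℝ) = s := projIcc_val _ _

theorem pI_cont : Continuous pI := continuous_projIcc (h := zero_le_one)

/-- charts of `[0,1] × T²` -/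
noncomputable def Ch (b : Bool) (ψ : OpenPartialHomeomorph (Tr 2) (Eu 2)) :
    OpenPartialHomeomorph MM (EuclideanHalfSpace (2 + 1)) where
  toFun p := ⟨cn (sg b p.1) (ψ p.2), (sg_mem p.1.2).1⟩
  invFun y := (pI (sg b (y.1 0)), ψ.symm (tl y.1))
  source := {p | sg b p.1 < 1 ∧ p.2 ∈ ψ.source}
  target := {y | y.1 0 < 1 ∧ tl y.1 ∈ ψ.target}
  map_source' := by
    rintro p ⟨h1, h2⟩
    exact ⟨h1, ψ.map_source h2⟩
  map_target' := by
    rintro y ⟨h1, h2⟩
    have h3 : y.1 0 ∈ Icc (0:ℝ) 1 := ⟨y.2, h1.le⟩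
    refine ⟨?_, ψ.map_target h2⟩
    show sg b (pI (sg b (y.1 0))) < 1
    rw [pI_val (sg_mem h3), sg_sg]
    exact h1
  left_inv' := by
    rintro p ⟨h1, h2⟩
    show (pI (sg b (sg b p.1)), ψ.symm (ψ p.2)) = p
    rw [sg_sg, pI_coe, ψ.left_inv h2]
  right_inv' := by
    rintro y ⟨h1, h2⟩
    have h3 : y.1 0 ∈ Icc (0:ℝ) 1 := ⟨y.2, h1.le⟩
    apply Subtype.ext
    show cn (sg b (pI (sg b (y.1 0)))) (ψ (ψ.symm (tl y.1))) = y.1
    rw [pI_val (sg_mem h3), sg_sg, ψ.right_inv h2, cn_tl]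
  open_source := by
    have h1 : IsOpen {p : MM | sg b p.1 < 1} :=
      isOpen_lt ((sg_cont b).comp (continuous_subtype_val.comp continuous_fst)) continuous_const
    exact h1.inter (ψ.open_source.preimage continuous_snd)
  open_target := by
    have h0 : Continuous fun y : EuclideanHalfSpace (2 + 1) => y.1 0 := by
      have : Continuous fun y : EE 2 => y 0 := by fun_prop
      exact this.comp continuous_subtype_val
    have h1 : IsOpen {y : EuclideanHalfSpace (2 + 1) | y.1 0 < 1} := isOpen_lt h0 continuous_const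
    exact h1.inter (ψ.open_target.preimage (tl_cont.comp continuous_subtype_val))
  continuousOn_toFun := by
    have ind : Topology.IsInducing (Subtype.val : EuclideanHalfSpace (2 + 1) → EE 2) := ⟨rfl⟩
    refine ind.continuousOn_iff.2 ?_
    refine cn_cont.comp_continuousOn (f := fun p : MM => (sg b (p.1 : ℝ), ψ p.2)) ?_
    apply ContinuousOn.prodMk
    · exact ((sg_cont b).comp (continuous_subtype_val.comp continuous_fst)).continuousOn
    · exact ψ.continuousOn.comp continuous_snd.continuousOn fun p hp => hp.2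
  continuousOn_invFun := by
    have h0 : Continuous fun y : EuclideanHalfSpace (2 + 1) => y.1 0 := by
      have : Continuous fun y : EE 2 => y 0 := by fun_prop
      exact this.comp continuous_subtype_val
    apply ContinuousOn.prodMk
    · exact (pI_cont.comp ((sg_cont b).comp h0)).continuousOn
    · exact ψ.continuousOn_symm.comp (tl_cont.comp continuous_subtype_val).continuousOn
        fun y hy => hy.2

/-- the type of the chart at a point -/
noncomputable def bt (p : MM) : Bool := decide ((p.1 : ℝ) < 1)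

theorem bt_lt (p : MM) : sg (bt p) p.1 < 1 := by
  unfold bt
  by_cases h : (p.1 : ℝ) < 1
  · simp [h, sg]
  · have : (p.1 : ℝ) = 1 := le_antisymm p.1.2.2 (not_lt.1 h)
    simp [sg, this]

noncomputable instance instCh : ChartedSpace (EuclideanHalfSpace (2 + 1)) MM where
  atlas := {e | ∃ b : Bool, ∃ ψ ∈ atlas (Eu 2) (Tr 2), e = Ch b ψ}
  chartAt p := Ch (bt p) (chartAt (Eu 2) p.2)
  mem_chart_source p := ⟨bt_lt p, mem_chart_source _ _⟩
  chart_mem_atlas _ := ⟨_, _, chart_mem_atlas _ _, rfl⟩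

/-- the model -/
noncomputable abbrev I3 := 𝓡∂ (2 + 1)

theorem range_I3 : range I3 = {y : EE 2 | 0 ≤ y 0} := range_modelWithCornersEuclideanHalfSpace (2 + 1)

theorem I3_symm {y : EE 2} (hy : y ∈ range I3) : (I3.symm y).1 = y := I3.right_inv hy

/-- the linear part of the coordinate changes -/
noncomputable def Dg (e : ℝ) : EE 2 →L[ℝ] EE 2 :=
  LinearMap.toContinuousLinearMap
    { toFun := fun v => cn (e * v 0) (tl v)
      map_add' := by
        intro v w
        rw [← cn_add]
        congr 1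
        simp [mul_add]
      map_smul' := by
        intro a v
        ext i
        refine Fin.cases ?_ (fun j => ?_) i
        · show e * (a * v 0) = a * (e * v 0)
          ring
        · rfl }

theorem Dg_apply (e : ℝ) (v : EE 2) : Dg e v = cn (e * v 0) (tl v) := rfl

/-- local form of the coordinate changes -/
theorem trans_local {b b' : Bool} {ψ ψ' : OpenPartialHomeomorph (Tr 2) (Eu 2)}
    (hψ : ψ ∈ atlas (Eu 2) (Tr 2)) (hψ' : ψ' ∈ atlas (Eu 2) (Tr 2)) {y : EE 2}
    (hy : y ∈ I3.symm ⁻¹' ((Ch b ψ).symm ≫ₕ Ch b' ψ').source ∩ range I3) :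
    ∃ l : Eu 2, ∀ᶠ z in 𝓝[range I3] y, (I3 ∘ ((Ch b ψ).symm ≫ₕ Ch b' ψ') ∘ I3.symm) z =
      Dg (sn b' * sn b) z + cn (sg b' (sg b 0)) l := by
  obtain ⟨⟨h1, h2⟩, hr⟩ := hy
  have h1' : (I3.symm y).1 0 < 1 ∧ tl (I3.symm y).1 ∈ ψ.target := h1
  rw [I3_symm hr] at h1'
  have h2' : ψ.symm (tl (I3.symm y).1) ∈ ψ'.source := h2.2
  rw [I3_symm hr, atlas_symm hψ] at h2'
  obtain ⟨l, -, hl⟩ := transition hψ' h2'
  refine ⟨l, ?_⟩
  have h3 : ∀ᶠ z in 𝓝[range I3] y, ψ' (pr (tl z)) = tl z + l :=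
    nhdsWithin_le_nhds (tl_cont.continuousAt.eventually hl)
  have h4 : ∀ᶠ z in 𝓝[range I3] y, z 0 < 1 := by
    apply nhdsWithin_le_nhds
    have : Continuous fun y : EE 2 => y 0 := by fun_prop
    exact this.continuousAt.eventually (gt_mem_nhds h1'.1)
  filter_upwards [h3, h4, self_mem_nhdsWithin] with z hz hz1 hzr
  have hz0 : 0 ≤ z 0 := by rw [range_I3] at hzr; exact hzr
  show cn (sg b' (pI (sg b ((I3.symm z).1 0)))) (ψ' (ψ.symm (tl (I3.symm z).1))) = _
  rw [I3_symm hzr, atlas_symm hψ, hz, pI_val (sg_mem ⟨hz0, hz1.le⟩), Dg_apply, ← cn_add]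
  congr 1
  rw [sg_eq b' (sg b (z 0)), sg_eq b (z 0), sg_eq b' (sg b 0)]
  ring

instance instMfd : IsManifold I3 ∞ MM := by
  apply isManifold_of_contDiffOn
  rintro e e' ⟨b, ψ, hψ, rfl⟩ ⟨b', ψ', hψ', rfl⟩ y hy
  obtain ⟨l, hl⟩ := trans_local hψ hψ' hy
  have h1 : ContDiffWithinAt ℝ ∞ (I3 ∘ ((Ch b ψ).symm ≫ₕ Ch b' ψ') ∘ I3.symm) (range I3) y := by
    refine ContDiffWithinAt.congr_of_eventuallyEq (f := fun z => Dg (sn b' * sn b) z +
      cn (sg b' (sg b 0)) l) ?_ hl (hl.self_of_nhdsWithin hy.2)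
    exact ((Dg (sn b' * sn b)).contDiff.add contDiff_const).contDiffWithinAt
  exact h1.mono inter_subset_right

/-- the tangent coordinate changes -/
theorem tcc_eq {c x : MM} (hx : x ∈ (extChartAt I3 c).source) :
    tangentCoordChange I3 c x x = Dg (sn (bt x) * sn (bt c)) := by
  rw [tangentCoordChange_def]
  have hx' : x ∈ (chartAt (EuclideanHalfSpace (2 + 1)) c).source := by
    rwa [extChartAt_source] at hx
  have hy : extChartAt I3 c x ∈ I3.symm ⁻¹' ((Ch (bt c) (chartAt (Eu 2) c.2)).symm ≫ₕ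
      Ch (bt x) (chartAt (Eu 2) x.2)).source ∩ range I3 := by
    refine ⟨?_, mem_range_self _⟩
    have e1 : I3.symm (extChartAt I3 c x) = chartAt (EuclideanHalfSpace (2 + 1)) c x :=
      I3.left_inv _
    show I3.symm (extChartAt I3 c x) ∈ ((Ch (bt c) (chartAt (Eu 2) c.2)).symm ≫ₕ
      Ch (bt x) (chartAt (Eu 2) x.2)).source
    rw [e1]
    refine ⟨(chartAt (EuclideanHalfSpace (2 + 1)) c).map_source hx', ?_⟩
    show (chartAt (EuclideanHalfSpace (2 + 1)) c).symm (chartAt (EuclideanHalfSpace (2 + 1)) c x) ∈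
      (chartAt (EuclideanHalfSpace (2 + 1)) x).source
    rw [(chartAt (EuclideanHalfSpace (2 + 1)) c).left_inv hx']
    exact mem_chart_source _ _
  obtain ⟨l, hl⟩ := trans_local (chart_mem_atlas _ c.2) (chart_mem_atlas _ x.2) hy
  have h1 : HasFDerivWithinAt (extChartAt I3 x ∘ (extChartAt I3 c).symm)
      (Dg (sn (bt x) * sn (bt c))) (range I3) (extChartAt I3 c x) := by
    have h2 : HasFDerivWithinAt (fun z => Dg (sn (bt x) * sn (bt c)) z +
        cn (sg (bt x) (sg (bt c) 0)) l) (Dg (sn (bt x) * sn (bt c))) (range I3)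
        (extChartAt I3 c x) := ((Dg _).hasFDerivAt.add_const _).hasFDerivWithinAt
    exact h2.congr_of_eventuallyEq hl (hl.self_of_nhdsWithin hy.2)
  exact h1.fderivWithin (I3.uniqueDiffOn _ (mem_range_self _))

theorem ext_apply (c x : MM) : extChartAt I3 c x = cn (sg (bt c) x.1) (chartAt (Eu 2) c.2 x.2) := rfl

theorem ext_symm {c : MM} {y : EE 2} (hy : y ∈ range I3) :
    (extChartAt I3 c).symm y = (pI (sg (bt c) (y 0)), pr (tl y)) := by
  show (pI (sg (bt c) ((I3.symm y).1 0)), (chartAt (Eu 2) c.2).symm (tl (I3.symm y).1)) = _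
  rw [I3_symm hy, atlas_symm (chart_mem_atlas _ c.2)]

theorem mem_src {c x : MM} : x ∈ (extChartAt I3 c).source ↔
    sg (bt c) x.1 < 1 ∧ x.2 ∈ (chartAt (Eu 2) c.2).source := by
  rw [extChartAt_source]
  rfl

theorem mem_tgt {c : MM} {y : EE 2} : y ∈ (extChartAt I3 c).target ↔
    0 ≤ y 0 ∧ y 0 < 1 ∧ tl y ∈ (chartAt (Eu 2) c.2).target := by
  rw [extChartAt_target]
  constructor
  · rintro ⟨h1, h2⟩
    have h1' : (I3.symm y).1 0 < 1 ∧ tl (I3.symm y).1 ∈ (chartAt (Eu 2) c.2).target := h1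
    rw [I3_symm h2] at h1'
    rw [range_I3] at h2
    exact ⟨h2, h1'⟩
  · rintro ⟨h0, h1⟩
    have hr : y ∈ range I3 := by rw [range_I3]; exact h0
    refine ⟨?_, hr⟩
    show (I3.symm y).1 0 < 1 ∧ tl (I3.symm y).1 ∈ (chartAt (Eu 2) c.2).target
    rw [I3_symm hr]
    exact h1

instance : ConnectedSpace (Tr 2) := by
  have : Function.Surjective (pr (n := 2)) := pr_surj
  exact this.connectedSpace covering.continuous

theorem bdry_nonempty : (I3.boundary MM).Nonempty := by
  refine ⟨((⟨0, by simp⟩ : unitInterval), pr 0), ?_⟩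
  rw [ModelWithCorners.boundary]
  show ModelWithCorners.IsBoundaryPoint I3 _
  unfold ModelWithCorners.IsBoundaryPoint
  have : frontier (range I3) = {y : EE 2 | 0 = y 0} :=
    frontier_range_modelWithCornersEuclideanHalfSpace (2 + 1)
  rw [this]
  show (0:ℝ) = sg (bt ((⟨0, by simp⟩ : unitInterval), pr 0)) 0
  simp [bt, sg]

end Pool.Agent.TH605.Stk3
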