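import Mathlib
import Pool.Agent.TH605.Stk3.Mfd
set_option autoImplicit false
open Set Filter Topology MeasureTheory
open scoped ENNReal Manifold ContDiff
open Pool.Agent.W545.Man Pool.Agent.W556.Tor

/-!
Measures on `[0,1] × T²`.
-/

namespace Pool.Agent.TH605.Stk3

/-- integer vectors -/
noncomputable def kv (k : Fin 2 → ℤ) : Eu 2 := WithLp.toLp 2 fun i => (k i : ℝ)

theorem kv_apply (k : Fin 2 → ℤ) (i : Fin 2) : kv k i = k i := rfl

theorem kv_mem (k : Fin 2 → ℤ) : kv k ∈ lat 2 := fun i => ⟨k i, rfl⟩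

theorem exists_kv {l : Eu 2} (hl : l ∈ lat 2) : ∃ k, l = kv k := by
  choose k hk using hl
  exact ⟨k, by ext i; exact hk i⟩

theorem kv_inj {k k' : Fin 2 → ℤ} (h : kv k = kv k') : k = k' := by
  funext i
  have := congrArg (fun z : Eu 2 => z i) h
  simp only [kv_apply] at this
  exact_mod_cast this

/-- the half-open unit square -/
def Qc : Set (Eu 2) := {z | ∀ i, z i ∈ Ico (0:ℝ) 1}

theorem Qc_meas : MeasurableSet Qc := by
  have : Qc = ⋂ i, {z : Eu 2 | z i ∈ Ico (0:ℝ) 1} := by ext z; simp [Qc]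
  rw [this]
  refine MeasurableSet.iInter fun i => ?_
  have h : Measurable fun z : Eu 2 => z i := by fun_prop
  exact h measurableSet_Ico

theorem tiling {F : Eu 2 → ℝ≥0∞} (hF : Measurable F) :
    ∫⁻ z, F z = ∫⁻ z in Qc, ∑' k : Fin 2 → ℤ, F (z + kv k) := by
  set A : (Fin 2 → ℤ) → Set (Eu 2) := fun k => {z | ∀ i, ⌊z i⌋ = k i} with hA
  have hAm : ∀ k, MeasurableSet (A k) := by
    intro k
    have : A k = ⋂ i, {z : Eu 2 | ⌊z i⌋ = k i} := by ext z; simp [hA]
    rw [this]
    refine MeasurableSet.iInter fun i => ?_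
    have h : Measurable fun z : Eu 2 => ⌊z i⌋ := Int.measurable_floor.comp (by fun_prop)
    exact h (measurableSet_singleton (k i))
  have hdis : Pairwise (Function.onFun Disjoint A) := by
    intro k k' hk
    rw [Function.onFun, Set.disjoint_left]
    intro z hz hz'
    apply hk
    funext i
    rw [← hz i, ← hz' i]
  have hun : ⋃ k, A k = univ := by
    rw [eq_univ_iff_forall]
    intro z
    exact mem_iUnion.2 ⟨fun i => ⌊z i⌋, fun i => rfl⟩
  have h1 : ∫⁻ z, F z = ∑' k, ∫⁻ z in A k, F z := by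
    rw [← setLIntegral_univ, ← hun, lintegral_iUnion hAm hdis]
  have h2 : ∀ k, ∫⁻ z in A k, F z = ∫⁻ z in Qc, F (z + kv k) := by
    intro k
    have h3 := (measurePreserving_add_right (volume : Measure (Eu 2)) (kv k)).setLIntegral_comp_preimage
      (hAm k) hF
    rw [← h3]
    congr 2
    ext z
    simp only [hA, mem_preimage, mem_ofPred_eq, Qc]
    apply forall_congr'
    intro i
    rw [PiLp.add_apply, kv_apply, Int.floor_add_intCast, add_eq_right, Int.floor_eq_zero_iff]
  rw [h1, lintegral_tsum]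
  · simp only [h2]
  · intro k
    exact (hF.comp (measurable_add_const _)).aemeasurable

/-- the invariant probability measure of the torus -/
noncomputable def lT : Measure (Tr 2) := Measure.map pr (volume.restrict Qc)

theorem pr_meas : Measurable (pr (n := 2)) := covering.continuous.measurable

theorem int_T {F : Tr 2 → ℝ≥0∞} (hF : Measurable F) : ∫⁻ τ, F τ ∂lT = ∫⁻ z in Qc, F (pr z) := by
  unfold lT
  rw [lintegral_map hF pr_meas]

theorem ind_chart_meas {ψ : OpenPartialHomeomorph (Tr 2) (Eu 2)} {h : Eu 2 → ℝ≥0∞}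
    (hh : Measurable h) : Measurable (ψ.source.indicator fun τ => h (ψ τ)) := by
  classical
  have h1 : Measurable (ψ.source.piecewise ψ fun _ => 0) :=
    ψ.continuousOn.measurable_piecewise continuousOn_const ψ.open_source.measurableSet
  have h2 : (ψ.source.indicator fun τ => h (ψ τ)) =
      ψ.source.indicator fun τ => h (ψ.source.piecewise ψ (fun _ => 0) τ) := by
    apply indicator_congr
    intro τ hτ
    show h (ψ τ) = h (ψ.source.piecewise ψ (fun _ => 0) τ)
    rw [piecewise_eq_of_mem _ _ _ hτ]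
  rw [h2]
  exact (hh.comp h1).indicator ψ.open_source.measurableSet

theorem chart_T {ψ : OpenPartialHomeomorph (Tr 2) (Eu 2)} (hψ : ψ ∈ atlas (Eu 2) (Tr 2))
    {h : Eu 2 → ℝ≥0∞} (hh : Measurable h) :
    ∫⁻ τ in ψ.source, h (ψ τ) ∂lT = ∫⁻ z in ψ.target, h z := by
  rw [← lintegral_indicator ψ.open_source.measurableSet, int_T (ind_chart_meas hh),
    ← lintegral_indicator ψ.open_target.measurableSet,
    tiling (hh.indicator ψ.open_target.measurableSet)]
  apply lintegral_congr
  intro z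
  have hpr : ∀ k, pr (z + kv k) = pr z := by
    intro k
    rw [eq_comm, pr_eq_iff]
    simpa using kv_mem k
  by_cases hz : pr z ∈ ψ.source
  · rw [indicator_of_mem hz]
    have h1 : pr (ψ (pr z)) = pr z := by
      rw [← atlas_symm hψ, ψ.left_inv hz]
    obtain ⟨k, hk⟩ := exists_kv (pr_eq_iff.1 h1.symm)
    have hk' : ψ (pr z) = z + kv k := by rw [← hk]; abel
    rw [tsum_eq_single k]
    · rw [indicator_of_mem]
      · rw [hk']
      · rw [← hk']; exact ψ.map_source hz
    · intro k' hkk'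
      rw [indicator_of_notMem]
      intro hmem
      apply hkk'
      have h2 : ψ (ψ.symm (z + kv k')) = z + kv k' := ψ.right_inv hmem
      rw [atlas_symm hψ, hpr, hk'] at h2
      exact (kv_inj (add_left_cancel h2)).symm
  · rw [indicator_of_notMem hz]
    symm
    rw [ENNReal.tsum_eq_zero]
    intro k
    rw [indicator_of_notMem]
    intro hmem
    apply hz
    have h2 := ψ.map_target hmem
    rwa [atlas_symm hψ, hpr] at h2

instance : IsProbabilityMeasure lT := by
  refine ⟨?_⟩
  have h1 := int_T (F := fun _ => 1) measurable_const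
  rw [lintegral_one] at h1
  rw [h1, setLIntegral_one]
  have h2 := (PiLp.volume_preserving_ofLp (Fin 2)).measure_preimage
    (s := Set.pi univ fun _ => Ico (0:ℝ) 1) (MeasurableSet.univ_pi fun _ => measurableSet_Ico).nullMeasurableSet
  have h3 : Qc = WithLp.ofLp ⁻¹' (Set.pi univ fun _ => Ico (0:ℝ) 1) := by
    ext z; simp [Qc]
  rw [h3]
  refine h2.trans ?_
  rw [Real.volume_pi_Ico]
  simp

/-- a measure on `[0,1] × T²` with a density depending on the first variable -/
noncomputable def mu (ρ : ℝ → ℝ≥0∞) : Measure MM :=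
  Measure.map (fun p : ℝ × Tr 2 => (pI p.1, p.2)) (((volume.restrict (Icc (0:ℝ) 1)).withDensity ρ).prod lT)

theorem mu_map_meas : Measurable fun p : ℝ × Tr 2 => ((pI p.1, p.2) : MM) :=
  (pI_cont.measurable.comp measurable_fst).prodMk measurable_snd

theorem int_mu {ρ : ℝ → ℝ≥0∞} (hρ : Measurable ρ) {F : MM → ℝ≥0∞} (hF : Measurable F) :
    ∫⁻ x, F x ∂(mu ρ) = ∫⁻ s in Icc (0:ℝ) 1, ρ s * ∫⁻ τ, F (pI s, τ) ∂lT := by
  unfold mu
  have hm : Measurable fun p : ℝ × Tr 2 => F (pI p.1, p.2) := hF.comp mu_map_meas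
  rw [lintegral_map hF mu_map_meas, lintegral_prod _ hm.aemeasurable,
    lintegral_withDensity_eq_lintegral_mul _ hρ hm.lintegral_prod_right']
  rfl

/-- volume in the coordinates `cn` -/
theorem int_cn {G : EE 2 → ℝ≥0∞} (hG : Measurable G) :
    ∫⁻ y, G y = ∫⁻ s, ∫⁻ z : Eu 2, G (cn s z) := by
  have h1 : ∫⁻ y, G y = ∫⁻ w : Fin (2 + 1) → ℝ, G (WithLp.toLp 2 w) :=
    ((PiLp.volume_preserving_toLp (Fin (2 + 1))).lintegral_comp hG).symm
  have h2 := (volume_preserving_piFinSuccAbove (fun _ : Fin (2 + 1) => ℝ) 0).symm.lintegral_comp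
    (f := fun w : Fin (2 + 1) → ℝ => G (WithLp.toLp 2 w)) (hG.comp (WithLp.measurable_toLp 2 _))
  rw [h1, ← h2]
  have h3 : Measurable fun p : ℝ × (Fin 2 → ℝ) => G (WithLp.toLp 2 (Fin.cons p.1 p.2)) := by
    have := (hG.comp (WithLp.measurable_toLp 2 _)).comp
      (volume_preserving_piFinSuccAbove (fun _ : Fin (2 + 1) => ℝ) 0).symm.measurable
    convert this using 1
    funext p
    simp only [Function.comp_apply]
    congr 2
    exact (Fin.insertNth_zero' _ _).symm
  have h4 : ∫⁻ p : ℝ × (Fin 2 → ℝ), G (WithLp.toLp 2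
      ((MeasurableEquiv.piFinSuccAbove (fun _ : Fin (2 + 1) => ℝ) 0).symm p)) =
      ∫⁻ p : ℝ × (Fin 2 → ℝ), G (WithLp.toLp 2 (Fin.cons p.1 p.2)) := by
    apply lintegral_congr
    intro p
    congr 2
    exact Fin.insertNth_zero' _ _
  refine h4.trans ?_
  rw [Measure.volume_eq_prod, lintegral_prod _ h3.aemeasurable]
  apply lintegral_congr
  intro s
  have h5 := (PiLp.volume_preserving_toLp (Fin 2)).lintegral_comp (f := fun z : Eu 2 => G (cn s z))
    (hG.comp ((cn_cont.comp (continuous_const.prodMk continuous_id)).measurable))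
  exact h5

/-- the measure on the boundary -/
noncomputable def nu (a : ℝ≥0∞) : Measure MM :=
  Measure.map (fun τ : Tr 2 => ((pI 0, τ) : MM)) (a • lT) +
    Measure.map (fun τ : Tr 2 => ((pI 1, τ) : MM)) (a • lT)

theorem slice_meas (s : ℝ) : Measurable fun τ : Tr 2 => ((pI s, τ) : MM) :=
  measurable_const.prodMk measurable_id

theorem int_nu {a : ℝ≥0∞} {F : MM → ℝ≥0∞} (hF : Measurable F) :
    ∫⁻ x, F x ∂(nu a) = a * ∫⁻ τ, F (pI 0, τ) ∂lT + a * ∫⁻ τ, F (pI 1, τ) ∂lT := by
  unfold nu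
  rw [lintegral_add_measure, lintegral_map hF (slice_meas 0), lintegral_map hF (slice_meas 1),
    lintegral_smul_measure, lintegral_smul_measure]
  rfl

theorem nu_univ (a : ℝ≥0∞) : nu a univ = a + a := by
  rw [← lintegral_one, int_nu measurable_const]
  simp

end Pool.Agent.TH605.Stk3
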