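import Mathlib
import Pool.Agent.TH605.Stk3.Meas
set_option autoImplicit false
open Set Filter Topology MeasureTheory
open scoped ENNReal Manifold ContDiff
open Pool.Agent.W545.Man Pool.Agent.W556.Tor

/-!
Diagonal metrics on `[0,1] × T²` and their volume measures.
-/

namespace Pool.Agent.TH605.Stk3

/-- positive smooth functions on the line -/
structure Fn where
  a : Fin (2 + 1) → ℝ → ℝ
  smooth : ∀ i, ContDiff ℝ ∞ (a i)
  pos : ∀ i s, 0 < a i s

/-- the coordinates -/
noncomputable def pp (i : Fin (2 + 1)) : EE 2 →L[ℝ] ℝ := EuclideanSpace.proj i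

theorem pp_apply (i : Fin (2 + 1)) (v : EE 2) : pp i v = v i := rfl

/-- a diagonal bilinear form -/
noncomputable def Bf (a : Fin (2 + 1) → ℝ) : EE 2 →L[ℝ] EE 2 →L[ℝ] ℝ :=
  ∑ i, a i • (pp i).smulRight (pp i)

theorem Bf_apply (a : Fin (2 + 1) → ℝ) (v w : EE 2) : Bf a v w = ∑ i, a i * (v i * w i) := by
  unfold Bf
  simp only [sum_apply, smul_apply, ContinuousLinearMap.smulRight_apply, pp_apply, smul_eq_mul]

theorem Bf_symm (a : Fin (2 + 1) → ℝ) (v w : EE 2) : Bf a v w = Bf a w v := by
  rw [Bf_apply, Bf_apply]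
  apply Finset.sum_congr rfl
  intro i _
  rw [mul_comm (v i)]

theorem Bf_Dg (a : Fin (2 + 1) → ℝ) {e : ℝ} (he : e * e = 1) (v w : EE 2) :
    Bf a (Dg e v) (Dg e w) = Bf a v w := by
  rw [Bf_apply, Bf_apply, Fin.sum_univ_succ, Fin.sum_univ_succ]
  congr 1
  show a 0 * ((e * v 0) * (e * w 0)) = a 0 * (v 0 * w 0)
  linear_combination (a 0 * v 0 * w 0) * he

theorem Bf_pos {a : Fin (2 + 1) → ℝ} (ha : ∀ i, 0 < a i) {v : EE 2} (hv : v ≠ 0) :
    0 < Bf a v v := by
  rw [Bf_apply]
  apply Finset.sum_pos' (fun i _ => mul_nonneg (ha i).le (mul_self_nonneg _))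
  by_contra hcon
  push Not at hcon
  apply hv
  ext i
  have h1 := hcon i (Finset.mem_univ i)
  have h2 : v i * v i ≤ 0 := by
    by_contra h3
    push Not at h3
    have := mul_pos (ha i) h3
    linarith
  have h3 : v i * v i = 0 := le_antisymm h2 (mul_self_nonneg _)
  exact mul_self_eq_zero.1 h3

theorem sgn_sq (x c : MM) : (sn (bt x) * sn (bt c)) * (sn (bt x) * sn (bt c)) = 1 := by
  have h1 := sn_sq (bt x)
  have h2 := sn_sq (bt c)
  calc (sn (bt x) * sn (bt c)) * (sn (bt x) * sn (bt c))
      = (sn (bt x) * sn (bt x)) * (sn (bt c) * sn (bt c)) := by ring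
    _ = 1 := by rw [h1, h2, one_mul]

theorem coeff_diag (A : Fn) {c z : MM} (hz : z ∈ (extChartAt I3 c).source) (v w : EE 2) :
    coeff (d := 2) (fun z : MM => Bf fun i => A.a i z.1) c z v w = Bf (fun i => A.a i z.1) v w := by
  show Bf (fun i => A.a i z.1) (tangentCoordChange I3 c z z v : EE 2)
    (tangentCoordChange I3 c z z w : EE 2) = _
  have h : (tangentCoordChange I3 c z z : EE 2 →L[ℝ] EE 2) = Dg (sn (bt z) * sn (bt c)) := tcc_eq hz
  have h1 := congrArg (fun L : EE 2 →L[ℝ] EE 2 => Bf (fun i => A.a i z.1) (L v) (L w)) h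
  exact h1.trans (Bf_Dg _ (sgn_sq z c) v w)

/-- the metric `a₀(s) ds² + a₁(s) dx² + a₂(s) dy²` -/
noncomputable def met (A : Fn) : RMetric 2 MM where
  inner z := Bf fun i => A.a i z.1
  symm z v w := Bf_symm (fun i => A.a i z.1) v w
  pos z v hv := Bf_pos (fun i => A.pos i z.1) hv
  smooth c v w := by
    have h1 : ContDiff ℝ ∞ fun y : EE 2 => ∑ i, A.a i (sg (bt c) (y 0)) * (v i * w i) := by
      apply ContDiff.sum
      intro i _
      apply ContDiff.mul _ contDiff_const
      apply (A.smooth i).comp
      apply (sg_smooth _).comp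
      exact (pp 0).contDiff
    apply h1.contDiffOn.congr
    intro y hy
    have hs := (extChartAt I3 c).map_target hy
    refine (coeff_diag A hs v w).trans ?_
    rw [Bf_apply]
    have hy' := mem_tgt.1 hy
    have hr : y ∈ range I3 := by rw [range_I3]; exact hy'.1
    rw [ext_symm hr]
    show ∑ i, A.a i (pI (sg (bt c) (y 0))) * (v i * w i) = _
    rw [pI_val (sg_mem ⟨hy'.1, hy'.2.1.le⟩)]

theorem gram_met (A : Fn) {c z : MM} (hz : z ∈ (extChartAt I3 c).source) :
    gram (met A) c z = Matrix.diagonal fun i => A.a i z.1 := by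
  ext i j
  show coeff (met A).inner c z (EuclideanSpace.single i 1) (EuclideanSpace.single j 1) = _
  have h := coeff_diag A hz (EuclideanSpace.single i 1) (EuclideanSpace.single j 1)
  refine h.trans ?_
  rw [Bf_apply, Matrix.diagonal_apply]
  by_cases hij : i = j
  · subst hij
    rw [if_pos rfl, Finset.sum_eq_single i]
    · simp
    · intro k _ hk
      simp [hk]
    · intro h; exact absurd (Finset.mem_univ _) h
  · rw [if_neg hij]
    apply Finset.sum_eq_zero
    intro k _
    by_cases hk : k = i
    · subst hk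
      simp [hij]
    · simp [hk]

/-- the volume density -/
noncomputable def dens (A : Fn) (s : ℝ) : ℝ≥0∞ := ENNReal.ofReal (√(∏ i, A.a i s))

theorem dens_meas (A : Fn) : Measurable (dens A) := by
  unfold dens
  apply ENNReal.measurable_ofReal.comp
  apply Continuous.measurable
  apply Real.continuous_sqrt.comp
  exact continuous_finsetProd _ fun i _ => (A.smooth i).continuous

theorem ext_chart_meas (c : MM) {h : EE 2 → ℝ≥0∞} (hh : Measurable h) :
    Measurable ((extChartAt I3 c).source.indicator fun x => h (extChartAt I3 c x)) := by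
  classical
  have ho : IsOpen (extChartAt I3 c).source := isOpen_extChartAt_source c
  have h1 : Measurable ((extChartAt I3 c).source.piecewise (extChartAt I3 c) fun _ => 0) :=
    (continuousOn_extChartAt c).measurable_piecewise continuousOn_const ho.measurableSet
  have h2 : ((extChartAt I3 c).source.indicator fun x => h (extChartAt I3 c x)) =
      (extChartAt I3 c).source.indicator fun x =>
        h ((extChartAt I3 c).source.piecewise (extChartAt I3 c) (fun _ => 0) x) := by
    apply indicator_congr
    intro τ hτ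
    show h (extChartAt I3 c τ) = h ((extChartAt I3 c).source.piecewise (extChartAt I3 c) (fun _ => 0) τ)
    rw [piecewise_eq_of_mem _ _ _ hτ]
  rw [h2]
  exact (hh.comp h1).indicator ho.measurableSet

/-- reflection of the interval -/
theorem int_sg (b : Bool) {F : ℝ → ℝ≥0∞} (hF : Measurable F) :
    ∫⁻ s in Icc (0:ℝ) 1, F (sg b s) = ∫⁻ s in Icc (0:ℝ) 1, F s := by
  cases b
  · have h1 := (Measure.measurePreserving_sub_left (volume : Measure ℝ) 1).setLIntegral_comp_preimage
      (measurableSet_Icc (a := (0:ℝ)) (b := 1)) hF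
    rw [← h1]
    have e : (fun s : ℝ => 1 - s) ⁻¹' Icc (0:ℝ) 1 = Icc 0 1 := by
      ext s
      simp only [mem_preimage, mem_Icc]
      constructor
      · rintro ⟨h1, h2⟩; constructor <;> linarith
      · rintro ⟨h1, h2⟩; constructor <;> linarith
    rw [e]
    rfl
  · rfl

theorem isVolume_met (A : Fn) : IsVolume (met A) (mu (dens A)) := by
  intro c h hh
  set ψ := chartAt (Eu 2) c.2 with hψ
  set b := bt c with hb
  have hψa : ψ ∈ atlas (Eu 2) (Tr 2) := chart_mem_atlas _ _
  have hsrc : (chartAt (EuclideanHalfSpace (2 + 1)) c).source = (extChartAt I3 c).source :=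
    (extChartAt_source _ _).symm
  have ho : IsOpen (extChartAt I3 c).source := isOpen_extChartAt_source c
  have hot : MeasurableSet (extChartAt I3 c).target := by
    have : (extChartAt I3 c).target = {y : EE 2 | 0 ≤ y 0 ∧ y 0 < 1 ∧ tl y ∈ ψ.target} := by
      ext y; exact mem_tgt
    rw [this]
    have h0 : Measurable fun y : EE 2 => y 0 := by fun_prop
    exact ((h0 measurableSet_Ici).inter ((h0 measurableSet_Iio).inter
      (tl_cont.measurable ψ.open_target.measurableSet)))
  rw [hsrc, ← lintegral_indicator ho.measurableSet, int_mu (dens_meas A) (ext_chart_meas c hh)]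
  -- the left-hand side
  have hL : ∀ s ∈ Icc (0:ℝ) 1, dens A s * ∫⁻ τ, (extChartAt I3 c).source.indicator
      (fun x => h (extChartAt I3 c x)) (pI s, τ) ∂lT =
      (fun t => (Iio (1:ℝ)).indicator (fun t => dens A (sg b t) * ∫⁻ z in ψ.target, h (cn t z)) t)
        (sg b s) := by
    intro s hs
    show _ = (Iio (1:ℝ)).indicator (fun t => dens A (sg b t) * ∫⁻ z in ψ.target, h (cn t z)) (sg b s)
    by_cases h1 : sg b s < 1
    · rw [indicator_of_mem (show sg b s ∈ Iio (1:ℝ) from h1), sg_sg]
      congr 1
      rw [← chart_T hψa (h := fun z => h (cn (sg b s) z))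
        (hh.comp ((cn_cont.comp (continuous_const.prodMk continuous_id)).measurable)),
        ← lintegral_indicator ψ.open_source.measurableSet]
      apply lintegral_congr
      intro τ
      by_cases h2 : τ ∈ ψ.source
      · rw [indicator_of_mem h2, indicator_of_mem]
        · rw [ext_apply]
          show h (cn (sg b (pI s)) (ψ τ)) = _
          rw [pI_val hs]
        · rw [mem_src]
          refine ⟨?_, h2⟩
          show sg b (pI s) < 1
          rw [pI_val hs]; exact h1
      · rw [indicator_of_notMem h2, indicator_of_notMem]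
        intro h3
        exact h2 (mem_src.1 h3).2
    · rw [indicator_of_notMem (show sg b s ∉ Iio (1:ℝ) from h1)]
      have : ∀ τ, (extChartAt I3 c).source.indicator
          (fun x => h (extChartAt I3 c x)) ((pI s, τ) : MM) = 0 := by
        intro τ
        rw [indicator_of_notMem]
        intro h3
        have h4 : sg b (pI s) < 1 := (mem_src.1 h3).1
        rw [pI_val hs] at h4
        exact h1 h4
      simp only [this, lintegral_zero, mul_zero]
  rw [setLIntegral_congr_fun measurableSet_Icc hL]
  have hGm : Measurable fun t : ℝ => ∫⁻ z in ψ.target, h (cn t z) :=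
    (hh.comp cn_cont.measurable).lintegral_prod_right'
  have hdm : Measurable fun t : ℝ => dens A (sg b t) := (dens_meas A).comp (sg_cont b).measurable
  rw [int_sg b (F := fun t => (Iio (1:ℝ)).indicator
    (fun t => dens A (sg b t) * ∫⁻ z in ψ.target, h (cn t z)) t)
    ((hdm.mul hGm).indicator measurableSet_Iio)]
  -- the right-hand side
  have hR : ∫⁻ y in (extChartAt I3 c).target, h y *
      ENNReal.ofReal (√(gram (met A) c ((extChartAt I3 c).symm y)).det) =
      ∫⁻ y in (extChartAt I3 c).target, h y * dens A (sg b (y 0)) := by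
    apply setLIntegral_congr_fun hot
    intro y hy
    have hs := (extChartAt I3 c).map_target hy
    have hy' := mem_tgt.1 hy
    have hr : y ∈ range I3 := by rw [range_I3]; exact hy'.1
    show h y * ENNReal.ofReal (√(gram (met A) c ((extChartAt I3 c).symm y)).det) = _
    rw [gram_met A hs, Matrix.det_diagonal, ext_symm hr]
    show h y * ENNReal.ofReal √(∏ i, A.a i (pI (sg b (y 0)))) = _
    rw [pI_val (sg_mem ⟨hy'.1, hy'.2.1.le⟩)]
    rfl
  rw [hR, ← lintegral_indicator hot, int_cn]
  · rw [← lintegral_indicator measurableSet_Icc]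
    apply lintegral_congr
    intro s
    by_cases h1 : s ∈ Icc (0:ℝ) 1 ∧ s < 1
    · have hms : Measurable fun z : Eu 2 => h (cn s z) :=
        hh.comp ((cn_cont.comp (continuous_const.prodMk continuous_id)).measurable)
      rw [indicator_of_mem h1.1, indicator_of_mem (show s ∈ Iio (1:ℝ) from h1.2),
        ← lintegral_const_mul _ hms, ← lintegral_indicator ψ.open_target.measurableSet]
      apply lintegral_congr
      intro z
      by_cases h2 : z ∈ ψ.target
      · rw [indicator_of_mem h2, indicator_of_mem]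
        · rw [cn_zero, mul_comm]
        · exact mem_tgt.2 ⟨h1.1.1, h1.2, h2⟩
      · rw [indicator_of_notMem h2, indicator_of_notMem]
        intro h3
        exact h2 (mem_tgt.1 h3).2.2
    · have h2 : ∀ z, (extChartAt I3 c).target.indicator
          (fun y => h y * dens A (sg b (y 0))) (cn s z) = 0 := by
        intro z
        rw [indicator_of_notMem]
        intro h3
        have h4 := mem_tgt.1 h3
        rw [cn_zero] at h4
        exact h1 ⟨⟨h4.1, h4.2.1.le⟩, h4.2.1⟩
      simp only [h2, lintegral_zero]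
      by_cases h3 : s ∈ Icc (0:ℝ) 1
      · rw [indicator_of_mem h3, indicator_of_notMem]
        intro h4
        exact h1 ⟨h3, h4⟩
      · rw [indicator_of_notMem h3]
  · apply Measurable.indicator _ hot
    apply hh.mul
    exact hdm.comp (by fun_prop)

theorem isBdryVolume_met (A : Fn) {a : ℝ} (ha : 0 < a) (h0 : A.a 1 0 * A.a 2 0 = a ^ 2)
    (h1 : A.a 1 1 * A.a 2 1 = a ^ 2) : IsBdryVolume (met A) (nu (ENNReal.ofReal a)) := by
  intro c h hh
  set ψ := chartAt (Eu 2) c.2 with hψ
  set b := bt c with hb
  have hψa : ψ ∈ atlas (Eu 2) (Tr 2) := chart_mem_atlas _ _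
  have hsrc : (chartAt (EuclideanHalfSpace (2 + 1)) c).source = (extChartAt I3 c).source :=
    (extChartAt_source _ _).symm
  have ho : IsOpen (extChartAt I3 c).source := isOpen_extChartAt_source c
  rw [hsrc, ← lintegral_indicator ho.measurableSet, int_nu (ext_chart_meas c hh)]
  have hmz : Measurable fun z : Eu 2 => h (cn 0 z) :=
    hh.comp ((cn_cont.comp (continuous_const.prodMk continuous_id)).measurable)
  -- the two boundary components
  have hyes : ∀ s ∈ Icc (0:ℝ) 1, sg b s = 0 → ∫⁻ τ, (extChartAt I3 c).source.indicator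
      (fun x => h (extChartAt I3 c x)) (pI s, τ) ∂lT = ∫⁻ z in ψ.target, h (cn 0 z) := by
    intro s hs h1
    rw [← chart_T hψa (h := fun z => h (cn 0 z)) hmz, ← lintegral_indicator ψ.open_source.measurableSet]
    apply lintegral_congr
    intro τ
    by_cases h2 : τ ∈ ψ.source
    · rw [indicator_of_mem h2, indicator_of_mem]
      · rw [ext_apply]
        show h (cn (sg b (pI s)) (ψ τ)) = _
        rw [pI_val hs, h1]
      · rw [mem_src]
        refine ⟨?_, h2⟩
        show sg b (pI s) < 1
        rw [pI_val hs, h1]; exact one_pos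
    · rw [indicator_of_notMem h2, indicator_of_notMem]
      intro h3
      exact h2 (mem_src.1 h3).2
  have hno : ∀ s ∈ Icc (0:ℝ) 1, sg b s = 1 → ∫⁻ τ, (extChartAt I3 c).source.indicator
      (fun x => h (extChartAt I3 c x)) (pI s, τ) ∂lT = 0 := by
    intro s hs h1
    have : ∀ τ, (extChartAt I3 c).source.indicator
        (fun x => h (extChartAt I3 c x)) ((pI s, τ) : MM) = 0 := by
      intro τ
      rw [indicator_of_notMem]
      intro h3
      have h4 : sg b (pI s) < 1 := (mem_src.1 h3).1
      rw [pI_val hs, h1] at h4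
      exact lt_irrefl _ h4
    simp only [this, lintegral_zero]
  have hR : ∫⁻ z in {z : FF 2 | inj z ∈ (extChartAt I3 c).target}, h (inj z) *
      ENNReal.ofReal (√(bgram (met A) c ((extChartAt I3 c).symm (inj z))).det) =
      ENNReal.ofReal a * ∫⁻ z in ψ.target, h (cn 0 z) := by
    have e1 : {z : FF 2 | inj z ∈ (extChartAt I3 c).target} = ψ.target := by
      ext z
      constructor
      · intro hz; exact (mem_tgt.1 hz).2.2
      · intro hz; exact mem_tgt.2 ⟨le_rfl, one_pos, hz⟩
    rw [e1, ← lintegral_const_mul _ hmz]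
    apply setLIntegral_congr_fun ψ.open_target.measurableSet
    intro z hz
    have hz' : inj z ∈ (extChartAt I3 c).target := mem_tgt.2 ⟨le_rfl, one_pos, hz⟩
    have hs := (extChartAt I3 c).map_target hz'
    have hr : (inj z : EE 2) ∈ range I3 := by rw [range_I3]; exact le_refl (0:ℝ)
    show h (inj z) * ENNReal.ofReal (√(bgram (met A) c ((extChartAt I3 c).symm (inj z))).det) = _
    have e2 : (bgram (met A) c ((extChartAt I3 c).symm (inj z))).det = a ^ 2 := by
      unfold bgram
      rw [gram_met A hs, Matrix.submatrix_diagonal _ _ (Fin.succ_injective 2), Matrix.det_diagonal,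
        ext_symm hr, Fin.prod_univ_two]
      show A.a 1 (pI (sg b 0)) * A.a 2 (pI (sg b 0)) = a ^ 2
      rw [pI_val (sg_mem ⟨le_rfl, zero_le_one⟩)]
      cases hb' : b
      · simpa [sg] using h1
      · simpa [sg] using h0
    rw [e2, Real.sqrt_sq ha.le, mul_comm]
    rfl
  refine Eq.trans ?_ hR.symm
  have e0 : (0:ℝ) ∈ Icc (0:ℝ) 1 := ⟨le_rfl, zero_le_one⟩
  have e1 : (1:ℝ) ∈ Icc (0:ℝ) 1 := ⟨zero_le_one, le_rfl⟩
  cases hb' : b
  · rw [hno 0 e0 (by simp [hb', sg]), hyes 1 e1 (by simp [hb', sg]), mul_zero, zero_add]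
  · rw [hyes 0 e0 (by simp [hb', sg]), hno 1 e1 (by simp [hb', sg]), mul_zero, add_zero]

end Pool.Agent.TH605.Stk3
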