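import Mathlib
import Pool.Agent.TH605.Stk3.Met
import Pool.Agent.TH605.Stk3.Core
set_option autoImplicit false
open Set Filter Topology MeasureTheory
open scoped ENNReal Manifold ContDiff
open Pool.Agent.W545.Man Pool.Agent.W556.Tor

/-!
Smooth functions on `[0,1] × T²` and their energies.
-/

namespace Pool.Agent.TH605.Stk3

/-- the point `(x, y)` -/
noncomputable def v2 (x y : ℝ) : Eu 2 := WithLp.toLp 2 ![x, y]

theorem v2_cont : Continuous fun p : ℝ × ℝ => v2 p.1 p.2 := by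
  refine (PiLp.continuous_toLp 2 _).comp (continuous_pi fun i => ?_)
  fin_cases i
  · exact continuous_fst
  · exact continuous_snd

/-- unit vectors -/
noncomputable def ee (i : Fin (2 + 1)) : EE 2 := EuclideanSpace.single i 1

/-- the differential -/
noncomputable def dL (u : MM → ℝ) (x : MM) : EE 2 →L[ℝ] ℝ := (dif (d := 2) u x : EE 2 →L[ℝ] ℝ)

/-- the partial derivative -/
noncomputable def Dd (u : MM → ℝ) (i : Fin (2 + 1)) (x : MM) : ℝ := dL u x (ee i)

/-- the lift of a function -/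
noncomputable def lift (u : MM → ℝ) (y : EE 2) : ℝ := u (pI (y 0), pr (tl y))

theorem bt_true {x : MM} (h : (x.1 : ℝ) < 1) : bt x = true := by
  unfold bt; simp [h]

theorem lift_deriv {u : MM → ℝ} (hu : ContMDiff I3 𝓘(ℝ, ℝ) ∞ u) {r : ℝ} (hr : r ∈ Ioo (0:ℝ) 1)
    (z : Eu 2) : HasFDerivAt (lift u) (dL u (pI r, pr z)) (cn r z) := by
  set x : MM := (pI r, pr z) with hx
  have hv : ((pI r : unitInterval) : ℝ) = r := pI_val ⟨hr.1.le, hr.2.le⟩
  have hb : bt x = true := bt_true (by show ((pI r : unitInterval) : ℝ) < 1; rw [hv]; exact hr.2)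
  have h1 : HasFDerivWithinAt (loc 2 x u) (dL u x) (range I3) (extChartAt I3 x x) :=
    has_dif ((hu x).mdifferentiableAt (by simp))
  set ψ := chartAt (Eu 2) (pr z) with hψ
  have hψa : ψ ∈ atlas (Eu 2) (Tr 2) := chart_mem_atlas _ _
  have hzs : pr z ∈ ψ.source := mem_chart_source _ _
  have h2 : pr (ψ (pr z)) = pr z := by rw [← atlas_symm hψa, ψ.left_inv hzs]
  obtain ⟨k, hk⟩ := exists_kv (pr_eq_iff.1 h2.symm)
  have hk' : ψ (pr z) = z + kv k := by rw [← hk]; abel
  have h3 : extChartAt I3 x x = cn r z + cn 0 (kv k) := by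
    rw [ext_apply, hb, ← cn_add, add_zero]
    show cn (sg true (pI r)) (ψ (pr z)) = _
    rw [hv, hk']
    rfl
  rw [h3] at h1
  have h4 : range I3 ∈ 𝓝 (cn r z + cn 0 (kv k)) := by
    rw [range_I3]
    have hc : Continuous fun y : EE 2 => y 0 := by fun_prop
    have h5 : (0:ℝ) < (cn r z + cn 0 (kv k) : EE 2) 0 := by
      show 0 < r + 0
      linarith [hr.1]
    filter_upwards [hc.continuousAt.eventually (lt_mem_nhds h5)] with y hy
    exact hy.le
  have h5 : HasFDerivAt (loc 2 x u) (dL u x) (cn r z + cn 0 (kv k)) := h1.hasFDerivAt h4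
  have h6 : HasFDerivAt (lift u) (dL u x) (cn r z + cn 0 (kv k)) := by
    apply h5.congr_of_eventuallyEq
    filter_upwards [h4] with y hy
    show lift u y = u ((extChartAt I3 x).symm y)
    rw [ext_symm hy, hb]
    rfl
  have h7 : lift u = fun y => lift u (y + cn 0 (kv k)) := by
    funext y
    show u (pI (y 0), pr (tl y)) = u (pI (y 0 + 0), pr (tl y + kv k))
    have : pr (tl y + kv k) = pr (tl y) := by
      rw [eq_comm, pr_eq_iff]
      simpa using kv_mem k
    rw [this, add_zero]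
  rw [h7]
  have h8 : HasFDerivAt (fun y : EE 2 => y + cn 0 (kv k)) (ContinuousLinearMap.id ℝ (EE 2)) (cn r z) :=
    (hasFDerivAt_id _).add_const _
  exact h6.comp (cn r z) h8

theorem curve_deriv {f : EE 2 → ℝ} {L : EE 2 →L[ℝ] ℝ} {c : ℝ → EE 2} {i : Fin (2 + 1)} {t : ℝ}
    (hc : ∀ s, c s = c 0 + s • ee i) (h : HasFDerivAt f L (c t)) :
    HasDerivAt (fun s => f (c s)) (L (ee i)) t := by
  have h1 : HasDerivAt c (ee i) t := by
    have : c = fun s => c 0 + s • ee i := by funext s; exact hc s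
    rw [this]
    have h2 := ((hasDerivAt_id t).smul_const (ee i)).const_add (c 0)
    simpa using h2
  exact h.comp_hasDerivAt t h1

theorem ee_apply (i j : Fin (2 + 1)) : ee i j = if j = i then 1 else 0 := by
  unfold ee
  simp [PiLp.single_apply]

theorem curve0 (z : Eu 2) (s : ℝ) : cn s z = cn 0 z + s • ee 0 := by
  ext j
  show cn s z j = cn 0 z j + s * ee 0 j
  rw [ee_apply]
  refine Fin.cases ?_ (fun k => ?_) j
  · simp [cn]
  · rw [if_neg (Fin.succ_ne_zero k), mul_zero, add_zero]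
    rfl

theorem curve1 (r y s : ℝ) : cn r (v2 s y) = cn r (v2 0 y) + s • ee 1 := by
  ext j
  show cn r (v2 s y) j = cn r (v2 0 y) j + s * ee 1 j
  rw [ee_apply]
  fin_cases j
  · simp [cn]
  · simp [cn, v2]
  · simp [cn, v2]

theorem curve2 (r x s : ℝ) : cn r (v2 x s) = cn r (v2 x 0) + s • ee 2 := by
  ext j
  show cn r (v2 x s) j = cn r (v2 x 0) j + s * ee 2 j
  rw [ee_apply]
  fin_cases j
  · simp [cn]
  · simp [cn, v2]
  · simp [cn, v2]

/-- the lift in three variables -/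
noncomputable def UU (u : MM → ℝ) (r x y : ℝ) : ℝ := u (pI r, pr (v2 x y))

/-- its partial derivatives -/
noncomputable def UD (u : MM → ℝ) (i : Fin (2 + 1)) (r x y : ℝ) : ℝ := Dd u i (pI r, pr (v2 x y))

theorem Dd_cont {u : MM → ℝ} (hu : ContMDiff I3 𝓘(ℝ, ℝ) ∞ u) (i : Fin (2 + 1)) :
    ContinuousOn (Dd u i) {x : MM | (x.1 : ℝ) < 1} := by
  intro x0 hx0
  have hb0 : bt x0 = true := bt_true hx0
  have ho : IsOpen {x : MM | (x.1 : ℝ) < 1} :=
    isOpen_lt (continuous_subtype_val.comp continuous_fst) continuous_const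
  have hsrc : (extChartAt I3 x0).source ∈ 𝓝 x0 := extChartAt_source_mem_nhds x0
  have h1 : ContinuousAt (fun x => Dloc 2 x0 u (extChartAt I3 x0 x) (ee i)) x0 := by
    have h2 : ContinuousOn (fun x => Dloc 2 x0 u (extChartAt I3 x0 x) (ee i))
        (extChartAt I3 x0).source := by
      have h3 := (Dloc_cont (d := 2) hu x0).comp (continuousOn_extChartAt x0)
        (fun x hx => (extChartAt I3 x0).map_source hx)
      exact h3.clm_apply continuousOn_const
    exact h2.continuousAt hsrc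
  have h4 : (fun x => Dloc 2 x0 u (extChartAt I3 x0 x) (ee i)) =ᶠ[𝓝 x0] Dd u i := by
    filter_upwards [hsrc, ho.mem_nhds hx0] with x hx hx1
    have hb : bt x = true := bt_true hx1
    have h5 := Dloc_eq (d := 2) (u := u) (c := x0) hx ((hu x).mdifferentiableAt (by simp))
    have h6 : (tangentCoordChange I3 x0 x x : EE 2 →L[ℝ] EE 2) = Dg (sn (bt x) * sn (bt x0)) := tcc_eq hx
    have h7 : Dloc 2 x0 u (extChartAt I3 x0 x) (ee i) =
        dL u x ((tangentCoordChange I3 x0 x x : EE 2 →L[ℝ] EE 2) (ee i)) :=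
      congrArg (fun L : EE 2 →L[ℝ] ℝ => L (ee i)) h5
    rw [h7, h6, hb, hb0]
    show dL u x (cn ((1 * 1) * ee i 0) (tl (ee i))) = dL u x (ee i)
    rw [one_mul, one_mul, cn_tl]
  exact (h1.congr h4).continuousWithinAt

theorem UD_cont {u : MM → ℝ} (hu : ContMDiff I3 𝓘(ℝ, ℝ) ∞ u) (i : Fin (2 + 1)) :
    ContinuousOn (fun p : ℝ × ℝ × ℝ => UD u i p.1 p.2.1 p.2.2) (Ioo (0:ℝ) 1 ×ˢ univ) := by
  have hc : Continuous fun p : ℝ × ℝ × ℝ => ((pI p.1, pr (v2 p.2.1 p.2.2)) : MM) :=
    (pI_cont.comp continuous_fst).prodMk (covering.continuous.comp (v2_cont.comp continuous_snd))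
  refine (Dd_cont hu i).comp hc.continuousOn ?_
  rintro ⟨r, x, y⟩ ⟨hr, -⟩
  show ((pI r : unitInterval) : ℝ) < 1
  rw [pI_val ⟨hr.1.le, hr.2.le⟩]
  exact hr.2

theorem slab {u : MM → ℝ} (hu : ContMDiff I3 𝓘(ℝ, ℝ) ∞ u) :
    Slab (UU u) (UD u 0) (UD u 1) (UD u 2) where
  cont := by
    have hc : Continuous fun p : ℝ × ℝ × ℝ => ((pI p.1, pr (v2 p.2.1 p.2.2)) : MM) :=
      (pI_cont.comp continuous_fst).prodMk (covering.continuous.comp (v2_cont.comp continuous_snd))
    exact (hu.continuous.comp hc).continuousOn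
  dr r hr x y := curve_deriv (c := fun s => cn s (v2 x y)) (fun s => curve0 _ s)
    (lift_deriv hu hr (v2 x y))
  dx r hr x y := curve_deriv (c := fun s => cn r (v2 s y)) (fun s => curve1 _ _ s)
    (lift_deriv hu hr (v2 x y))
  dy r hr x y := curve_deriv (c := fun s => cn r (v2 x s)) (fun s => curve2 _ _ s)
    (lift_deriv hu hr (v2 x y))
  cr := UD_cont hu 0
  cx := UD_cont hu 1
  cy := UD_cont hu 2

/-- integrals over the unit square -/
theorem int_Q {G : Eu 2 → ℝ≥0∞} (hG : Measurable G) :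
    ∫⁻ z in Qc, G z = ∫⁻ x, ∫⁻ y, G (v2 x y) ∂β ∂β := by
  have hGi : Measurable (Qc.indicator G) := hG.indicator Qc_meas
  rw [← lintegral_indicator Qc_meas,
    ← (PiLp.volume_preserving_toLp (Fin 2)).lintegral_comp hGi]
  have h1 := (volume_preserving_finTwoArrow ℝ).symm.lintegral_comp
    (f := fun w : Fin 2 → ℝ => Qc.indicator G (WithLp.toLp 2 w))
    (hGi.comp (WithLp.measurable_toLp 2 _))
  refine h1.symm.trans ?_
  have h2 : ∀ p : ℝ × ℝ, Qc.indicator G (WithLp.toLp 2
      ((MeasurableEquiv.finTwoArrow (α := ℝ)).symm p)) = Qc.indicator G (v2 p.1 p.2) := fun p => rfl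
  simp only [h2]
  have hm : Measurable fun p : ℝ × ℝ => Qc.indicator G (v2 p.1 p.2) := hGi.comp v2_cont.measurable
  rw [Measure.volume_eq_prod, lintegral_prod _ hm.aemeasurable]
  have hmem : ∀ x y, v2 x y ∈ Qc ↔ x ∈ Ico (0:ℝ) 1 ∧ y ∈ Ico (0:ℝ) 1 := by
    intro x y
    unfold Qc
    simp only [mem_ofPred_eq, Fin.forall_fin_two]
    exact Iff.rfl
  have h3 : ∀ x y, Qc.indicator G (v2 x y) =
      (Ico (0:ℝ) 1).indicator (fun x => (Ico (0:ℝ) 1).indicator (fun y => G (v2 x y)) y) x := by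
    intro x y
    by_cases hx : x ∈ Ico (0:ℝ) 1
    · rw [indicator_of_mem hx]
      by_cases hy : y ∈ Ico (0:ℝ) 1
      · rw [indicator_of_mem hy, indicator_of_mem ((hmem x y).2 ⟨hx, hy⟩)]
      · rw [indicator_of_notMem hy, indicator_of_notMem]
        exact fun h => hy ((hmem x y).1 h).2
    · rw [indicator_of_notMem hx, indicator_of_notMem]
      exact fun h => hx ((hmem x y).1 h).1
  have h4 : ∀ x, ∫⁻ y, Qc.indicator G (v2 x y) =
      (Ico (0:ℝ) 1).indicator (fun x => ∫⁻ y in Ico (0:ℝ) 1, G (v2 x y)) x := by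
    intro x
    simp only [h3]
    by_cases hx : x ∈ Ico (0:ℝ) 1
    · simp only [indicator_of_mem hx]
      rw [lintegral_indicator measurableSet_Ico]
    · simp only [indicator_of_notMem hx, lintegral_zero]
  simp only [h4]
  rw [lintegral_indicator measurableSet_Ico]
  have h5 : volume.restrict (Ico (0:ℝ) 1) = β := Measure.restrict_congr_set Ioo_ae_eq_Ico.symm
  rw [h5]

theorem gradSq_ge (A : Fn) (u : MM → ℝ) (i : Fin (2 + 1)) (x : MM) :
    ENNReal.ofReal (Dd u i x ^ 2 / A.a i x.1) ≤ gradSq (met A) u x := by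
  unfold gradSq
  refine le_iSup_of_le (ee i) ?_
  apply le_of_eq
  congr 1
  show Dd u i x ^ 2 / A.a i x.1 = Dd u i x ^ 2 / Bf (fun i => A.a i x.1) (ee i) (ee i)
  congr 1
  rw [Bf_apply, Finset.sum_eq_single i]
  · rw [ee_apply]; simp
  · intro k _ hk
    rw [ee_apply]; simp [hk]
  · intro h; exact absurd (Finset.mem_univ _) h

/-- lower bound for the energy -/
theorem energy_ge (A : Fn) {u : MM → ℝ} (hu : ContMDiff I3 𝓘(ℝ, ℝ) ∞ u) (i : Fin (2 + 1))
    {J : Set ℝ} (hJ : MeasurableSet J) (hJ1 : J ⊆ Ioo (0:ℝ) 1) {c : ℝ}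
    (hc : ∀ s ∈ J, c * A.a i s ≤ √(∏ i, A.a i s)) :
    ENNReal.ofReal c * en J (UD u i) ≤ energy (met A) (mu (dens A)) u := by
  classical
  have hS : MeasurableSet {x : MM | (x.1 : ℝ) < 1} :=
    (isOpen_lt (continuous_subtype_val.comp continuous_fst) continuous_const).measurableSet
  have hval : Measurable fun x : MM => (x.1 : ℝ) := (continuous_subtype_val.comp continuous_fst).measurable
  set D : MM → ℝ := {x : MM | (x.1 : ℝ) < 1}.piecewise (Dd u i) fun _ => 0 with hD
  have hDm : Measurable D := (Dd_cont hu i).measurable_piecewise continuousOn_const hS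
  set F : MM → ℝ≥0∞ := fun x => (J.indicator (fun _ => (1:ℝ≥0∞)) x.1) *
    ENNReal.ofReal (D x ^ 2 / A.a i x.1) with hF
  have hFm : Measurable F := by
    apply Measurable.mul
    · exact (measurable_const.indicator hJ).comp hval
    · apply ENNReal.measurable_ofReal.comp
      apply (hDm.pow_const 2).div
      exact (A.smooth i).continuous.measurable.comp hval
  have hFle : ∀ x, F x ≤ gradSq (met A) u x := by
    intro x
    simp only [hF]
    by_cases hx : (x.1 : ℝ) ∈ J
    · rw [indicator_of_mem hx, one_mul]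
      have h1 : D x = Dd u i x := piecewise_eq_of_mem _ _ _ (hJ1 hx).2
      rw [h1]
      exact gradSq_ge A u i x
    · rw [indicator_of_notMem hx, zero_mul]
      exact zero_le
  calc ENNReal.ofReal c * en J (UD u i)
      ≤ ∫⁻ x, F x ∂(mu (dens A)) := by
        rw [int_mu (dens_meas A) hFm]
        have h0 : ∫⁻ s in J, (dens A s * ∫⁻ τ, F (pI s, τ) ∂lT) ≤
            ∫⁻ s in Icc (0:ℝ) 1, dens A s * ∫⁻ τ, F (pI s, τ) ∂lT :=
          lintegral_mono_set (hJ1.trans Ioo_subset_Icc_self)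
        refine le_trans ?_ h0
        unfold en
        rw [← lintegral_const_mul' _ _ ENNReal.ofReal_ne_top]
        apply setLIntegral_mono' hJ
        intro s hs
        have hs1 := hJ1 hs
        have hsv : ((pI s : unitInterval) : ℝ) = s := pI_val ⟨hs1.1.le, hs1.2.le⟩
        have hslice : Measurable fun τ : Tr 2 => F (pI s, τ) := hFm.comp (slice_meas s)
        have hslice' : Measurable fun z : Eu 2 => F (pI s, pr z) := hslice.comp pr_meas
        rw [int_T hslice, int_Q hslice']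
        have e1 : ∀ x y, F (pI s, pr (v2 x y)) = ENNReal.ofReal (UD u i s x y ^ 2 / A.a i s) := by
          intro x y
          simp only [hF]
          have h1 : D (pI s, pr (v2 x y)) = Dd u i (pI s, pr (v2 x y)) := by
            apply piecewise_eq_of_mem
            show ((pI s : unitInterval) : ℝ) < 1
            rw [hsv]; exact hs1.2
          rw [h1]
          show J.indicator (fun _ => (1:ℝ≥0∞)) ((pI s : unitInterval) : ℝ) *
            ENNReal.ofReal (UD u i s x y ^ 2 / A.a i ((pI s : unitInterval) : ℝ)) = _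
          rw [hsv, indicator_of_mem hs, one_mul]
        simp only [e1]
        have h2 : ∀ x y, ENNReal.ofReal c * qd (UD u i s x y) ≤
            dens A s * ENNReal.ofReal (UD u i s x y ^ 2 / A.a i s) := by
          intro x y
          unfold dens qd
          rw [← ENNReal.ofReal_mul (Real.sqrt_nonneg _), ← ENNReal.ofReal_mul' (sq_nonneg _)]
          apply ENNReal.ofReal_le_ofReal
          have h3 := hc s hs
          have h4 := A.pos i s
          rw [mul_div_assoc', le_div_iff₀ h4]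
          nlinarith [sq_nonneg (UD u i s x y)]
        calc ENNReal.ofReal c * ∫⁻ x, ∫⁻ y, qd (UD u i s x y) ∂β ∂β
            = ∫⁻ x, ∫⁻ y, ENNReal.ofReal c * qd (UD u i s x y) ∂β ∂β := by
              rw [← lintegral_const_mul' _ _ ENNReal.ofReal_ne_top]
              congr 1
              funext x
              rw [lintegral_const_mul' _ _ ENNReal.ofReal_ne_top]
          _ ≤ ∫⁻ x, ∫⁻ y, dens A s * ENNReal.ofReal (UD u i s x y ^ 2 / A.a i s) ∂β ∂β :=
              lintegral_mono fun x => lintegral_mono fun y => h2 x y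
          _ = dens A s * ∫⁻ x, ∫⁻ y, ENNReal.ofReal (UD u i s x y ^ 2 / A.a i s) ∂β ∂β := by
              have hd : dens A s ≠ ⊤ := ENNReal.ofReal_ne_top
              rw [← lintegral_const_mul' _ _ hd]
              congr 1
              funext x
              rw [lintegral_const_mul' _ _ hd]
    _ ≤ energy (met A) (mu (dens A)) u := lintegral_mono hFle

/-- the functional inequality on the manifold -/
theorem main_ineq (A : Fn) {a c : ℝ} (hc : 0 < c)
    (h0 : ∀ s ∈ Ioo (0:ℝ) 1, c * A.a 0 s ≤ √(∏ i, A.a i s))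
    (h1 : ∀ s ∈ Icc (1/8:ℝ) (3/8), c * A.a 1 s ≤ √(∏ i, A.a i s))
    (h2 : ∀ s ∈ Icc (5/8:ℝ) (7/8), c * A.a 2 s ≤ √(∏ i, A.a i s))
    {u : MM → ℝ} (hu : ContMDiff I3 𝓘(ℝ, ℝ) ∞ u) :
    ∃ b : ℝ, ∫⁻ x, qd (u x - b) ∂(nu (ENNReal.ofReal a)) ≤
      ENNReal.ofReal a * (180 * (ENNReal.ofReal c)⁻¹) * energy (met A) (mu (dens A)) u := by
  obtain ⟨b, hb⟩ := core (slab hu)
  refine ⟨b, ?_⟩
  set E := energy (met A) (mu (dens A)) u with hE
  have hc0 : ENNReal.ofReal c ≠ 0 := (ENNReal.ofReal_pos.2 hc).ne'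
  have hinv : ∀ X : ℝ≥0∞, ENNReal.ofReal c * X ≤ E → X ≤ (ENNReal.ofReal c)⁻¹ * E := by
    intro X hX
    calc X = (ENNReal.ofReal c)⁻¹ * (ENNReal.ofReal c * X) := by
          rw [← mul_assoc, ENNReal.inv_mul_cancel hc0 ENNReal.ofReal_ne_top, one_mul]
      _ ≤ _ := by gcongr
  have g0 := hinv _ (energy_ge A hu 0 measurableSet_Ioo subset_rfl h0)
  have g1 := hinv _ (energy_ge A hu 1 measurableSet_Icc (fun s hs => ⟨by linarith [hs.1], by linarith [hs.2]⟩) h1)
  have g2 := hinv _ (energy_ge A hu 2 measurableSet_Icc (fun s hs => ⟨by linarith [hs.1], by linarith [hs.2]⟩) h2)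
  have hum : Measurable fun x => qd (u x - b) :=
    qd_meas.comp (hu.continuous.measurable.sub_const b)
  have hs0 : Measurable fun τ : Tr 2 => qd (u (pI 0, τ) - b) := hum.comp (slice_meas 0)
  have hs1 : Measurable fun τ : Tr 2 => qd (u (pI 1, τ) - b) := hum.comp (slice_meas 1)
  have hq0 : Measurable fun z : Eu 2 => qd (u (pI 0, pr z) - b) := hs0.comp pr_meas
  have hq1 : Measurable fun z : Eu 2 => qd (u (pI 1, pr z) - b) := hs1.comp pr_meas
  rw [int_nu hum, int_T hs0, int_T hs1, int_Q hq0, int_Q hq1, ← mul_add]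
  have hb' : ∫⁻ x, ∫⁻ y, qd (u (pI 0, pr (v2 x y)) - b) ∂β ∂β +
      ∫⁻ x, ∫⁻ y, qd (u (pI 1, pr (v2 x y)) - b) ∂β ∂β ≤
      60 * (en (Ioo 0 1) (UD u 0) + en (Icc (1/8) (3/8)) (UD u 1) + en (Icc (5/8) (7/8)) (UD u 2)) := hb
  calc ENNReal.ofReal a * (∫⁻ x, ∫⁻ y, qd (u (pI 0, pr (v2 x y)) - b) ∂β ∂β +
      ∫⁻ x, ∫⁻ y, qd (u (pI 1, pr (v2 x y)) - b) ∂β ∂β)
      ≤ ENNReal.ofReal a * (60 * ((ENNReal.ofReal c)⁻¹ * E + (ENNReal.ofReal c)⁻¹ * E +
        (ENNReal.ofReal c)⁻¹ * E)) := by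
        refine mul_le_mul_right (hb'.trans ?_) _
        gcongr
    _ = _ := by ring

end Pool.Agent.TH605.Stk3
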