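import Mathlib
import Pool.Agent.TH605.Stk3.Fun
set_option autoImplicit false
open Set Filter Topology MeasureTheory
open scoped ENNReal Manifold ContDiff
open Pool.Agent.W545.Man Pool.Agent.W556.Tor

/-!
The metrics on `[0,1] × T²` with large first Steklov eigenvalue.
-/

namespace Pool.Agent.TH605.Stk3

/-- the exponent -/
noncomputable def th (s : ℝ) : ℝ := -64 * (s * (1 - s) * (1 - 2 * s))

theorem th_low {s : ℝ} (hs : s ∈ Icc (1/8:ℝ) (3/8)) : th s ≤ -(3/2) := by
  unfold th
  have h1 : 7 / 64 ≤ s * (1 - s) := by nlinarith [hs.1, hs.2]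
  have h2 : 1 / 4 ≤ 1 - 2 * s := by linarith [hs.2]
  nlinarith

theorem th_high {s : ℝ} (hs : s ∈ Icc (5/8:ℝ) (7/8)) : 3/2 ≤ th s := by
  unfold th
  have h1 : 7 / 64 ≤ s * (1 - s) := by nlinarith [hs.1, hs.2]
  have h2 : 1 / 4 ≤ 2 * s - 1 := by linarith [hs.1]
  nlinarith

/-- the metric functions -/
noncomputable def AA (α : ℝ) (hα : 0 < α) (σ lam : ℝ) : Fn where
  a := ![fun s => Real.exp (2 * σ * (s * (1 - s)) - 2 * lam),
    fun s => α * Real.exp (2 * σ * (s * (1 - s)) + lam * th s),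
    fun s => α * Real.exp (2 * σ * (s * (1 - s)) - lam * th s)]
  smooth := by
    intro i
    fin_cases i
    · show ContDiff ℝ ∞ fun s => Real.exp (2 * σ * (s * (1 - s)) - 2 * lam)
      fun_prop
    · show ContDiff ℝ ∞ fun s => α * Real.exp (2 * σ * (s * (1 - s)) + lam * th s)
      unfold th
      fun_prop
    · show ContDiff ℝ ∞ fun s => α * Real.exp (2 * σ * (s * (1 - s)) - lam * th s)
      unfold th
      fun_prop
  pos := by
    intro i s
    fin_cases i
    · show 0 < Real.exp (2 * σ * (s * (1 - s)) - 2 * lam)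
      positivity
    · show 0 < α * Real.exp (2 * σ * (s * (1 - s)) + lam * th s)
      positivity
    · show 0 < α * Real.exp (2 * σ * (s * (1 - s)) - lam * th s)
      positivity

theorem AA0 {α : ℝ} (hα : 0 < α) (σ lam s : ℝ) :
    (AA α hα σ lam).a 0 s = Real.exp (2 * σ * (s * (1 - s)) - 2 * lam) := rfl
theorem AA1 {α : ℝ} (hα : 0 < α) (σ lam s : ℝ) :
    (AA α hα σ lam).a 1 s = α * Real.exp (2 * σ * (s * (1 - s)) + lam * th s) := rfl
theorem AA2 {α : ℝ} (hα : 0 < α) (σ lam s : ℝ) :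
    (AA α hα σ lam).a 2 s = α * Real.exp (2 * σ * (s * (1 - s)) - lam * th s) := rfl

theorem sqrt_AA {α : ℝ} (hα : 0 < α) (σ lam s : ℝ) :
    √(∏ i, (AA α hα σ lam).a i s) = α * Real.exp (3 * σ * (s * (1 - s)) - lam) := by
  have h : ∏ i, (AA α hα σ lam).a i s = (α * Real.exp (3 * σ * (s * (1 - s)) - lam)) ^ 2 := by
    rw [Fin.prod_univ_three, AA0, AA1, AA2, mul_pow, ← Real.exp_nat_mul]
    have : Real.exp (2 * σ * (s * (1 - s)) - 2 * lam) *
        (α * Real.exp (2 * σ * (s * (1 - s)) + lam * th s)) *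
        (α * Real.exp (2 * σ * (s * (1 - s)) - lam * th s)) = α ^ 2 *
        (Real.exp (2 * σ * (s * (1 - s)) - 2 * lam) * Real.exp (2 * σ * (s * (1 - s)) + lam * th s) *
        Real.exp (2 * σ * (s * (1 - s)) - lam * th s)) := by ring
    rw [this, ← Real.exp_add, ← Real.exp_add]
    congr 2
    push_cast
    ring
  rw [h, Real.sqrt_sq (by positivity)]

/-- the constant in the energy estimate -/
noncomputable def cc (α lam : ℝ) : ℝ := min α 1 * Real.exp (lam / 2)

theorem cc_pos {α : ℝ} (hα : 0 < α) (lam : ℝ) : 0 < cc α lam := by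
  unfold cc
  have : 0 < min α 1 := lt_min hα one_pos
  positivity

section Bounds

variable {α σ lam : ℝ} (hα : 0 < α) (hσ : 0 ≤ σ) (hl : 0 ≤ lam)
include hσ hl

theorem bound0 {s : ℝ} (hs : s ∈ Ioo (0:ℝ) 1) :
    cc α lam * (AA α hα σ lam).a 0 s ≤ √(∏ i, (AA α hα σ lam).a i s) := by
  rw [sqrt_AA, AA0]
  have hp : 0 ≤ s * (1 - s) := mul_nonneg hs.1.le (by linarith [hs.2])
  calc cc α lam * Real.exp (2 * σ * (s * (1 - s)) - 2 * lam)
      ≤ (α * Real.exp (lam / 2)) * Real.exp (2 * σ * (s * (1 - s)) - 2 * lam) := by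
        unfold cc
        gcongr
        exact min_le_left _ _
    _ = α * Real.exp (lam / 2 + (2 * σ * (s * (1 - s)) - 2 * lam)) := by
        rw [Real.exp_add (lam / 2)]; ring
    _ ≤ α * Real.exp (3 * σ * (s * (1 - s)) - lam) := by
        have := mul_nonneg hσ hp
        gcongr
        nlinarith

theorem bound1 {s : ℝ} (hs : s ∈ Icc (1/8:ℝ) (3/8)) :
    cc α lam * (AA α hα σ lam).a 1 s ≤ √(∏ i, (AA α hα σ lam).a i s) := by
  rw [sqrt_AA, AA1]
  have hp : 0 ≤ s * (1 - s) := mul_nonneg (by linarith [hs.1]) (by linarith [hs.2])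
  have ht := th_low hs
  calc cc α lam * (α * Real.exp (2 * σ * (s * (1 - s)) + lam * th s))
      ≤ (1 * Real.exp (lam / 2)) * (α * Real.exp (2 * σ * (s * (1 - s)) + lam * th s)) := by
        unfold cc
        gcongr
        exact min_le_right _ _
    _ = α * Real.exp (lam / 2 + (2 * σ * (s * (1 - s)) + lam * th s)) := by
        rw [Real.exp_add (lam / 2)]; ring
    _ ≤ α * Real.exp (3 * σ * (s * (1 - s)) - lam) := by
        have := mul_nonneg hσ hp
        have := mul_le_mul_of_nonneg_left ht hl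
        gcongr
        nlinarith

theorem bound2 {s : ℝ} (hs : s ∈ Icc (5/8:ℝ) (7/8)) :
    cc α lam * (AA α hα σ lam).a 2 s ≤ √(∏ i, (AA α hα σ lam).a i s) := by
  rw [sqrt_AA, AA2]
  have hp : 0 ≤ s * (1 - s) := mul_nonneg (by linarith [hs.1]) (by linarith [hs.2])
  have ht := th_high hs
  calc cc α lam * (α * Real.exp (2 * σ * (s * (1 - s)) - lam * th s))
      ≤ (1 * Real.exp (lam / 2)) * (α * Real.exp (2 * σ * (s * (1 - s)) - lam * th s)) := by
        unfold cc
        gcongr
        exact min_le_right _ _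
    _ = α * Real.exp (lam / 2 + (2 * σ * (s * (1 - s)) - lam * th s)) := by
        rw [Real.exp_add (lam / 2)]; ring
    _ ≤ α * Real.exp (3 * σ * (s * (1 - s)) - lam) := by
        have := mul_nonneg hσ hp
        have := mul_le_mul_of_nonneg_left ht hl
        gcongr
        nlinarith

end Bounds

/-- the volume as a function of the parameter -/
noncomputable def WW (σ : ℝ) : ℝ := ∫ s in (0:ℝ)..1, Real.exp (3 * σ * (s * (1 - s)))

theorem WW_cont : Continuous WW := by
  unfold WW
  apply intervalIntegral.continuous_parametric_intervalIntegral_of_continuous'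
  fun_prop

theorem WW_zero : WW 0 = 1 := by
  unfold WW
  simp

theorem WW_ge {σ : ℝ} : 1 + σ / 2 ≤ WW σ := by
  have h1 : ∫ s in (0:ℝ)..1, (1 + 3 * σ * (s * (1 - s))) = 1 + σ / 2 := by
    have e : ∀ s : ℝ, 1 + 3 * σ * (s * (1 - s)) = 1 + (3 * σ * s - 3 * σ * s ^ 2) := fun s => by ring
    simp only [e]
    rw [intervalIntegral.integral_add, intervalIntegral.integral_sub,
      intervalIntegral.integral_const_mul, intervalIntegral.integral_const_mul, integral_id,
      integral_pow, intervalIntegral.integral_const]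
    · norm_num
      ring
    all_goals
      apply Continuous.intervalIntegrable
      fun_prop
  rw [← h1]
  unfold WW
  apply intervalIntegral.integral_mono_on zero_le_one
  · apply Continuous.intervalIntegrable
    fun_prop
  · apply Continuous.intervalIntegrable
    fun_prop
  · intro s _
    have := Real.add_one_le_exp (3 * σ * (s * (1 - s)))
    linarith

theorem exists_sigma {T : ℝ} (hT : 1 ≤ T) : ∃ σ : ℝ, 0 ≤ σ ∧ WW σ = T := by
  have h1 : T ∈ Icc (WW 0) (WW (2 * T)) := by
    refine ⟨by rw [WW_zero]; exact hT, ?_⟩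
    have := WW_ge (σ := 2 * T)
    linarith
  obtain ⟨σ, hσ, hσ'⟩ := intermediate_value_Icc (by linarith) WW_cont.continuousOn h1
  exact ⟨σ, hσ.1, hσ'⟩

theorem mu_univ {α : ℝ} (hα : 0 < α) (σ lam : ℝ) : mu (dens (AA α hα σ lam)) univ =
    ENNReal.ofReal (α * Real.exp (-lam) * WW σ) := by
  rw [← lintegral_one, int_mu (dens_meas _) measurable_const]
  have e1 : ∀ s, dens (AA α hα σ lam) s * ∫⁻ _ : Tr 2, 1 ∂lT =
      ENNReal.ofReal (α * Real.exp (3 * σ * (s * (1 - s)) - lam)) := by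
    intro s
    rw [lintegral_one, measure_univ, mul_one]
    unfold dens
    rw [sqrt_AA]
  simp only [e1]
  rw [← ofReal_integral_eq_lintegral_ofReal]
  · congr 1
    rw [integral_Icc_eq_integral_Ioc, ← intervalIntegral.integral_of_le zero_le_one]
    unfold WW
    rw [← intervalIntegral.integral_const_mul]
    congr 1
    funext s
    rw [sub_eq_add_neg, Real.exp_add]
    ring
  · apply ContinuousOn.integrableOn_Icc
    fun_prop
  · exact Eventually.of_forall fun s => by positivity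

theorem bdry_mem {x : MM} (hx : x ∈ I3.boundary MM) : (x.1 : ℝ) = 0 ∨ (x.1 : ℝ) = 1 := by
  have h1 : ModelWithCorners.IsBoundaryPoint I3 x := hx
  unfold ModelWithCorners.IsBoundaryPoint at h1
  have h2 : frontier (range I3) = {y : EE 2 | 0 = y 0} :=
    frontier_range_modelWithCornersEuclideanHalfSpace (2 + 1)
  rw [h2, ext_apply] at h1
  have h3 : 0 = sg (bt x) x.1 := h1
  cases hb : bt x
  · right
    rw [hb] at h3
    simp [sg] at h3
    linarith
  · left
    rw [hb] at h3
    simp [sg] at h3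
    rw [← h3]

theorem bgram_bdry {α : ℝ} (hα : 0 < α) (σ lam : ℝ) {c x : MM} (hx : x ∈ I3.boundary MM)
    (hc : x ∈ (extChartAt I3 c).source) :
    bgram (met (AA α hα σ lam)) c x = Matrix.diagonal fun _ => α := by
  unfold bgram
  rw [gram_met _ hc, Matrix.submatrix_diagonal _ _ (Fin.succ_injective 2)]
  congr 1
  funext i
  have hx' := bdry_mem hx
  have e1 : ((x.1 : ℝ) * (1 - x.1)) = 0 := by
    rcases hx' with h | h <;> rw [h] <;> ring
  have e2 : th x.1 = 0 := by
    unfold th; rw [e1]; ring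
  fin_cases i
  · show (AA α hα σ lam).a 1 x.1 = α
    rw [AA1, e1, e2]; simp
  · show (AA α hα σ lam).a 2 x.1 = α
    rw [AA2, e1, e2]; simp

/-- lower bound for the Rayleigh quotients -/
theorem ray {α : ℝ} (hα : 0 < α) {σ lam : ℝ} (hσ : 0 ≤ σ) (hl : 0 ≤ lam) {u : MM → ℝ}
    (hu : ContMDiff I3 𝓘(ℝ, ℝ) ∞ u) (h0 : ∫ x, u x ∂(nu (ENNReal.ofReal α)) = 0)
    (hb : bsq (nu (ENNReal.ofReal α)) u ≠ 0) :
    (ENNReal.ofReal α * (180 * (ENNReal.ofReal (cc α lam))⁻¹))⁻¹ ≤
      energy (met (AA α hα σ lam)) (mu (dens (AA α hα σ lam))) u / bsq (nu (ENNReal.ofReal α)) u := by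
  have hfin : IsFiniteMeasure (nu (ENNReal.ofReal α)) := by
    refine ⟨?_⟩
    rw [nu_univ]
    finiteness
  obtain ⟨b, hb1⟩ := main_ineq (AA α hα σ lam) (a := α) (cc_pos hα lam)
    (fun s hs => bound0 hα hσ hl hs) (fun s hs => bound1 hα hσ hl hs)
    (fun s hs => bound2 hα hσ hl hs) hu
  have h1 := mean_zero_le (nu (ENNReal.ofReal α)) (m := fun _ => 1) (u := u) continuous_const
    (fun _ => zero_le_one) hu.continuous (by simpa using h0) b
  simp only [one_mul] at h1
  set C := ENNReal.ofReal α * (180 * (ENNReal.ofReal (cc α lam))⁻¹) with hC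
  have h2 : bsq (nu (ENNReal.ofReal α)) u ≤
      C * energy (met (AA α hα σ lam)) (mu (dens (AA α hα σ lam))) u := h1.trans hb1
  have hbt : bsq (nu (ENNReal.ofReal α)) u ≠ ⊤ := by
    unfold bsq
    have := (cont_integrable (nu (ENNReal.ofReal α)) (f := fun x => u x ^ 2)
      (hu.continuous.pow 2)).lintegral_lt_top
    exact this.ne
  rw [ENNReal.le_div_iff_mul_le (Or.inl hb) (Or.inl hbt)]
  calc C⁻¹ * bsq (nu (ENNReal.ofReal α)) u
      ≤ C⁻¹ * (C * energy (met (AA α hα σ lam)) (mu (dens (AA α hα σ lam))) u) := by gcongr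
    _ = (C⁻¹ * C) * energy (met (AA α hα σ lam)) (mu (dens (AA α hα σ lam))) u :=
        (mul_assoc C⁻¹ C _).symm
    _ ≤ 1 * energy (met (AA α hα σ lam)) (mu (dens (AA α hα σ lam))) u := by
        gcongr
        exact ENNReal.inv_mul_le_one C
    _ = _ := one_mul _

theorem tendsto_bound {α : ℝ} (hα : 0 < α) {l : ℕ → ℝ} (hl : Tendsto l atTop atTop) :
    Tendsto (fun n => (ENNReal.ofReal α * (180 * (ENNReal.ofReal (cc α (l n)))⁻¹))⁻¹) atTop (𝓝 ⊤) := by
  have h1 : Tendsto (fun n => cc α (l n)) atTop atTop := by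
    unfold cc
    apply Tendsto.const_mul_atTop (lt_min hα one_pos)
    exact Real.tendsto_exp_atTop.comp (hl.atTop_div_const (by norm_num))
  have h2 : Tendsto (fun n => (ENNReal.ofReal (cc α (l n)))⁻¹) atTop (𝓝 0) := by
    have := (ENNReal.tendsto_ofReal_nhds_top.2 h1).inv
    rwa [ENNReal.inv_top] at this
  have h3 : Tendsto (fun n => ENNReal.ofReal α * (180 * (ENNReal.ofReal (cc α (l n)))⁻¹)) atTop
      (𝓝 (ENNReal.ofReal α * (180 * 0))) := by
    apply ENNReal.Tendsto.const_mul _ (Or.inr ENNReal.ofReal_ne_top)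
    exact ENNReal.Tendsto.const_mul h2 (Or.inr (by norm_num))
  rw [mul_zero, mul_zero] at h3
  have := h3.inv
  rwa [ENNReal.inv_zero] at this

end Pool.Agent.TH605.Stk3
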